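import Pool.Agent.Lib.MP_f76be0_co.Struct

/-!
The case of two hubs.
-/

namespace Pool.Agent.Lib.MP_f76be0_co

open Finset Pool.Agent.Lib.MP_4332cb_co

/-- an edge across the partition inside a connected set -/
lemma cross_edge {V : Type*} {G : SimpleGraph V} {P C : Set V} {a b : V} (h : RI G C a b)
    (ha : a ∈ P) (hb : b ∉ P) :
    ∃ x y, G.Adj x y ∧ x ∈ C ∧ y ∈ C ∧ x ∈ P ∧ y ∉ P := by
  induction h with
  | refl => exact absurd ha hb
  | @tail b c h1 h2 ih =>
    by_cases hbP : b ∈ P
    · exact ⟨b, c, h2.1, h2.2.1, h2.2.2, hbP, hb⟩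
    · exact ih hbP

/-- a matching across a partition of a `k`-connected graph -/
theorem matching {V : Type*} [Fintype V] {G : SimpleGraph V} {k : ℕ} (hk : KConnected G k)
    (P : Set V) (A B : Finset V) (hA : k ≤ A.card) (hB : k ≤ B.card) (hAP : ∀ v ∈ A, v ∈ P)
    (hBP : ∀ v ∈ B, v ∉ P) :
    ∃ a b : Fin k → V, (∀ i, G.Adj (a i) (b i)) ∧ (∀ i, a i ∈ P) ∧ (∀ i, b i ∉ P) ∧
      (∀ i j, i ≠ j → a i ≠ a j) ∧ (∀ i j, i ≠ j → b i ≠ b j) := by
  classical
  have hsep : ∀ X : Finset V, Sp G P Pᶜ (X : Set V) → k ≤ X.card := by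
    intro X hX
    by_contra hlt
    push Not at hlt
    obtain ⟨a, haA, haX⟩ := Finset.exists_mem_notMem_of_card_lt_card (lt_of_lt_of_le hlt hA)
    obtain ⟨b, hbB, hbX⟩ := Finset.exists_mem_notMem_of_card_lt_card (lt_of_lt_of_le hlt hB)
    have hconn := hk.2 X hlt
    have hcn : Cn G {v : V | v ∉ X} := (Cn_iff G _).2 hconn
    have := hcn.2 a haX b hbX
    exact hX a (hAP a haA) b (hBP b hbB) haX hbX this
  obtain ⟨C, hC1, hC2, hC3, hC4⟩ := menger G P Pᶜ k hsep
  have : ∀ i, ∃ x y, G.Adj x y ∧ x ∈ C i ∧ y ∈ C i ∧ x ∈ P ∧ y ∉ P := by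
    intro i
    obtain ⟨a, ha1, ha2⟩ := hC3 i
    obtain ⟨b, hb1, hb2⟩ := hC4 i
    exact cross_edge ((hC1 i).2 a ha1 b hb1) ha2 hb2
  choose a b h1 h2 h3 h4 h5 using this
  refine ⟨a, b, h1, h4, h5, ?_, ?_⟩
  · intro i j hij he
    exact Set.disjoint_left.1 (hC2 i j hij) (h2 i) (he ▸ h2 j)
  · intro i j hij he
    exact Set.disjoint_left.1 (hC2 i j hij) (h3 i) (he ▸ h3 j)

/-- two hubs -/
theorem caseII {V : Type} [Fintype V] {G : SimpleGraph V} {k t δ : ℕ} (r : V)
    (hk : KConnected G k) (hcol : Colours V k t) (hn : 3 ≤ Fintype.card V)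
    (hδ : ∀ v, δ ≤ (nb G v).card) (h1 : Fintype.card V + 3 * (t + 2 * k + 1) < 3 * δ)
    (h2 : 5 * t + 8 * k + 5 < δ) (x0 y0 : V) (hxy : ¬ R G (t + 2 * k + 1) x0 y0)
    (hM : ∀ M : Finset V, (∀ m ∈ M, R G (t + 2 * k + 1) x0 m ∧ R G (t + 2 * k + 1) m y0) →
      M.card ≤ t) : Pack G r k := by
  classical
  set t1 := t + 2 * k + 1 with ht1
  have hα := fun x y z => alpha (G := G) (t := t1) hδ h1 x y z
  have hδ3 : Fintype.card V ≤ 3 * δ := by omega
  have hδ0 : 0 < δ := by omega
  have hnδ : δ ≤ Fintype.card V := (hδ r).trans (card_le_univ _)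
  set A : Finset V := univ.filter (fun z => ¬ R G t1 z y0) with hA
  set B : Finset V := univ.filter (fun z => ¬ R G t1 z x0) with hB
  set W : Finset V := univ.filter (fun z => R G t1 x0 z ∧ R G t1 z y0) with hW
  have mA : ∀ z, z ∈ A ↔ ¬ R G t1 z y0 := fun z => by rw [hA]; simp
  have mB : ∀ z, z ∈ B ↔ ¬ R G t1 z x0 := fun z => by rw [hB]; simp
  have mW : ∀ z, z ∈ W ↔ R G t1 x0 z ∧ R G t1 z y0 := fun z => by rw [hW]; simp
  have hWc : W.card ≤ t := hM W (fun m hm => (mW m).1 hm)
  have hcover : ∀ z, z ∈ A ∨ z ∈ B ∨ z ∈ W := by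
    intro z
    by_cases ha : R G t1 z y0
    · by_cases hb : R G t1 z x0
      · exact Or.inr (Or.inr ((mW z).2 ⟨hb.symm, ha⟩))
      · exact Or.inr (Or.inl ((mB z).2 hb))
    · exact Or.inl ((mA z).2 ha)
  have hAB : ∀ z, z ∈ A → z ∉ B := by
    intro z ha hb
    rw [mA] at ha
    rw [mB] at hb
    rcases hα z x0 y0 with h | h | h
    · exact hb h
    · exact hxy h
    · exact ha h
  have hAA : ∀ z ∈ A, ∀ w ∈ A, R G t1 z w := by
    intro z hz w hw
    rw [mA] at hz hw
    rcases hα z w y0 with h | h | h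
    · exact h
    · exact absurd h hw
    · exact absurd h hz
  have hBB : ∀ z ∈ B, ∀ w ∈ B, R G t1 z w := by
    intro z hz w hw
    rw [mB] at hz hw
    rcases hα z w x0 with h | h | h
    · exact h
    · exact absurd h hw
    · exact absurd h hz
  have hAc : t1 ≤ A.card := by
    have := count hδ hδ3 hδ0 x0 (A ∪ W) (t := t1) (by
      intro z hz
      rw [mem_union, not_or] at hz
      rcases hcover z with h | h | h
      · exact absurd h hz.1
      · exact (mB z).1 h
      · exact absurd h hz.2)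
    have h3 := card_union_le A W
    omega
  have hBc : t1 ≤ B.card := by
    have := count hδ hδ3 hδ0 y0 (B ∪ W) (t := t1) (by
      intro z hz
      rw [mem_union, not_or] at hz
      rcases hcover z with h | h | h
      · exact (mA z).1 h
      · exact absurd h hz.1
      · exact absurd h hz.2)
    have h3 := card_union_le B W
    omega
  -- the partition
  set P : Set V := {z | z ∈ A ∨ (z ∈ W ∧ (nb G z ∩ B).card ≤ (nb G z ∩ A).card)} with hP
  have hsplit : ∀ z, δ ≤ (nb G z ∩ A).card + (nb G z ∩ B).card + t := by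
    intro z
    have h3 : nb G z ⊆ (nb G z ∩ A) ∪ (nb G z ∩ B) ∪ W := by
      intro u hu
      rcases hcover u with h | h | h
      · exact mem_union_left _ (mem_union_left _ (mem_inter.2 ⟨hu, h⟩))
      · exact mem_union_left _ (mem_union_right _ (mem_inter.2 ⟨hu, h⟩))
      · exact mem_union_right _ h
    have h4 := (card_le_card h3).trans ((card_union_le _ _).trans
      (Nat.add_le_add_right (card_union_le _ _) _))
    have := hδ z
    omega
  have hAP : ∀ v ∈ A, v ∈ P := fun v hv => Or.inl hv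
  have hBP : ∀ v ∈ B, v ∉ P := by
    rintro v hv (h | h)
    · exact hAB v h hv
    · exact (mB v).1 hv ((mW v).1 h.1).1.symm
  have hPA : ∀ v, v ∈ P → v ∉ A → t1 ≤ (nb G v ∩ A).card := by
    rintro v (h | h) hv
    · exact absurd h hv
    · have := hsplit v
      have := h.2
      omega
  have hPB : ∀ v, v ∉ P → v ∉ B → t1 ≤ (nb G v ∩ B).card := by
    intro v hv hvB
    have hvW : v ∈ W := by
      rcases hcover v with h | h | h
      · exact absurd (Or.inl h) hv
      · exact absurd h hvB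
      · exact h
    have h3 : ¬ (nb G v ∩ B).card ≤ (nb G v ∩ A).card := fun h => hv (Or.inr ⟨hvW, h⟩)
    have := hsplit v
    omega
  obtain ⟨a, b, hab, haP, hbP, hane, hbne⟩ :=
    matching hk P A B (by omega) (by omega) hAP hBP
  set X : Finset V := insert r (univ.image a ∪ univ.image b) with hX
  have hXc : X.card ≤ 2 * k + 1 := by
    calc X.card ≤ (univ.image a ∪ univ.image b).card + 1 := card_insert_le _ _
      _ ≤ (univ.image a).card + (univ.image b).card + 1 :=
          Nat.add_le_add_right (card_union_le _ _) _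
      _ ≤ k + k + 1 := by
          have e1 : (univ.image a).card ≤ k := by
            simpa using (card_image_le (s := (univ : Finset (Fin k))) (f := a))
          have e2 : (univ.image b).card ≤ k := by
            simpa using (card_image_le (s := (univ : Finset (Fin k))) (f := b))
          omega
      _ = 2 * k + 1 := by ring
  have hrX : r ∈ X := mem_insert_self _ _
  have haX : ∀ i, a i ∈ X := fun i =>
    mem_insert_of_mem (mem_union_left _ (mem_image_of_mem a (mem_univ i)))
  have hbX : ∀ i, b i ∈ X := fun i =>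
    mem_insert_of_mem (mem_union_right _ (mem_image_of_mem b (mem_univ i)))
  have hsd : ∀ Y : Finset V, t1 ≤ Y.card → t ≤ (Y \ X).card := by
    intro Y hY
    have := Finset.le_card_sdiff X Y
    omega
  -- the family of sets
  let S : (V ⊕ (V × V)) ⊕ ((V ⊕ V) ⊕ Bool) → Finset V := fun j => match j with
    | Sum.inl (Sum.inl v) => nb G v \ X
    | Sum.inl (Sum.inr p) => if R G t1 p.1 p.2 then cm G p.1 p.2 \ X else univ
    | Sum.inr (Sum.inl (Sum.inl v)) =>
        if t1 ≤ (nb G v ∩ A).card then (nb G v ∩ A) \ X else univ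
    | Sum.inr (Sum.inl (Sum.inr v)) =>
        if t1 ≤ (nb G v ∩ B).card then (nb G v ∩ B) \ X else univ
    | Sum.inr (Sum.inr true) => A \ X
    | Sum.inr (Sum.inr false) => B \ X
  have huniv : t ≤ (univ : Finset V).card := by rw [card_univ]; omega
  obtain ⟨col, hc⟩ := hcol _ S (by
    simp only [Fintype.card_sum, Fintype.card_prod, Fintype.card_bool]
    nlinarith) (by
    rintro ((v | p) | ((v | v) | (_ | _)))
    · exact hsd _ ((by omega : t1 ≤ δ).trans (hδ v))
    · show t ≤ (if R G t1 p.1 p.2 then cm G p.1 p.2 \ X else univ).card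
      split_ifs with hp
      · exact hsd _ hp
      · exact huniv
    · show t ≤ (if t1 ≤ (nb G v ∩ A).card then (nb G v ∩ A) \ X else univ).card
      split_ifs with hp
      · exact hsd _ hp
      · exact huniv
    · show t ≤ (if t1 ≤ (nb G v ∩ B).card then (nb G v ∩ B) \ X else univ).card
      split_ifs with hp
      · exact hsd _ hp
      · exact huniv
    · exact hsd _ hBc
    · exact hsd _ hAc)
  -- the classes
  set U : Fin k → Set V := fun i => {v | (v ∉ X ∧ col v = i) ∨ (v ≠ r ∧ (v = a i ∨ v = b i))}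
    with hU
  have hUr : ∀ i v, v ∉ X → col v = i → v ∈ U i := fun i v h1 h2 => Or.inl ⟨h1, h2⟩
  refine ⟨U, ?_, ?_, ?_, ?_⟩
  · rintro i (h | h)
    · exact h.1 hrX
    · exact h.1 rfl
  · intro i j hij
    rw [Set.disjoint_left]
    rintro v (hv | hv) (hw | hw)
    · exact hij (hv.2.symm.trans hw.2)
    · rcases hw.2 with h | h
      · exact hv.1 (h ▸ haX j)
      · exact hv.1 (h ▸ hbX j)
    · rcases hv.2 with h | h
      · exact hw.1 (h ▸ haX i)
      · exact hw.1 (h ▸ hbX i)
    · rcases hv.2 with h | h <;> rcases hw.2 with h' | h'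
      · exact hane i j hij (h.symm.trans h')
      · exact hbP j (h' ▸ h ▸ haP i)
      · exact hbP i (h ▸ h' ▸ haP j)
      · exact hbne i j hij (h.symm.trans h')
  · intro i x hx
    set Q : Set V := insert r (U i) with hQ
    have hUQ : ∀ v, v ∉ X → col v = i → v ∈ Q := fun v h1 h2 =>
      Set.mem_insert_of_mem _ (hUr i v h1 h2)
    have hR : ∀ u ∈ Q, ∀ v ∈ Q, R G t1 u v → RI G Q u v := by
      intro u hu v hv huv
      obtain ⟨z, hz, hzc⟩ := hc (Sum.inl (Sum.inr (u, v))) i
      have hz' : z ∈ cm G u v \ X := by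
        have : S (Sum.inl (Sum.inr (u, v))) = cm G u v \ X := by
          show (if R G t1 u v then cm G u v \ X else univ) = _
          rw [if_pos huv]
        rw [← this]; exact hz
      rw [mem_sdiff] at hz'
      exact RI_of_common hu hv (hUQ z hz'.2 hzc) hz'.1
    -- anchors
    obtain ⟨p, hp, hpc⟩ := hc (Sum.inr (Sum.inr true)) i
    have hp' : p ∈ A \ X := hp
    rw [mem_sdiff] at hp'
    have hpQ : p ∈ Q := hUQ p hp'.2 hpc
    obtain ⟨q, hq, hqc⟩ := hc (Sum.inr (Sum.inr false)) i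
    have hq' : q ∈ B \ X := hq
    rw [mem_sdiff] at hq'
    have hqQ : q ∈ Q := hUQ q hq'.2 hqc
    have hP1 : ∀ v ∈ Q, v ∈ P → RI G Q v p := by
      intro v hv hvP
      by_cases hvA : v ∈ A
      · exact hR v hv p hpQ (hAA v hvA p hp'.1)
      · have h3 := hPA v hvP hvA
        obtain ⟨u, hu, huc⟩ := hc (Sum.inr (Sum.inl (Sum.inl v))) i
        have hu' : u ∈ (nb G v ∩ A) \ X := by
          have : S (Sum.inr (Sum.inl (Sum.inl v))) = (nb G v ∩ A) \ X := by
            show (if t1 ≤ (nb G v ∩ A).card then (nb G v ∩ A) \ X else univ) = _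
            rw [if_pos h3]
          rw [← this]; exact hu
        rw [mem_sdiff, mem_inter, mem_nb] at hu'
        have huQ : u ∈ Q := hUQ u hu'.2 huc
        exact (RI.single hu'.1.1 hv huQ).trans (hR u huQ p hpQ (hAA u hu'.1.2 p hp'.1))
    have hP2 : ∀ v ∈ Q, v ∉ P → RI G Q v q := by
      intro v hv hvP
      by_cases hvB : v ∈ B
      · exact hR v hv q hqQ (hBB v hvB q hq'.1)
      · have h3 := hPB v hvP hvB
        obtain ⟨u, hu, huc⟩ := hc (Sum.inr (Sum.inl (Sum.inr v))) i
        have hu' : u ∈ (nb G v ∩ B) \ X := by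
          have : S (Sum.inr (Sum.inl (Sum.inr v))) = (nb G v ∩ B) \ X := by
            show (if t1 ≤ (nb G v ∩ B).card then (nb G v ∩ B) \ X else univ) = _
            rw [if_pos h3]
          rw [← this]; exact hu
        rw [mem_sdiff, mem_inter, mem_nb] at hu'
        have huQ : u ∈ Q := hUQ u hu'.2 huc
        exact (RI.single hu'.1.1 hv huQ).trans (hR u huQ q hqQ (hBB u hu'.1.2 q hq'.1))
    have haQ : a i ∈ Q := by
      by_cases h : a i = r
      · rw [h]; exact Set.mem_insert _ _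
      · exact Set.mem_insert_of_mem _ (Or.inr ⟨h, Or.inl rfl⟩)
    have hbQ : b i ∈ Q := by
      by_cases h : b i = r
      · rw [h]; exact Set.mem_insert _ _
      · exact Set.mem_insert_of_mem _ (Or.inr ⟨h, Or.inr rfl⟩)
    have hpq : RI G Q p q :=
      (hP1 _ haQ (haP i)).symm.trans ((RI.single (hab i) haQ hbQ).trans (hP2 _ hbQ (hbP i)))
    have hall : ∀ v ∈ Q, RI G Q v p := by
      intro v hv
      by_cases hvP : v ∈ P
      · exact hP1 v hv hvP
      · exact (hP2 v hv hvP).trans hpq.symm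
    exact (hall r (Set.mem_insert _ _)).trans (hall x (Set.mem_insert_of_mem _ hx)).symm
  · intro i x _
    obtain ⟨u, hu, huc⟩ := hc (Sum.inl (Sum.inl x)) i
    have hu' : u ∈ nb G x \ X := hu
    rw [mem_sdiff, mem_nb] at hu'
    exact ⟨u, hUr i u hu'.2 huc, hu'.1⟩

end Pool.Agent.Lib.MP_f76be0_co
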