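import Pool.Agent.Lib.MP_f76be0_co.Depth
import Pool.Agent.Lib.MP_f76be0_co.Two

/-!
The conjecture on independent spanning trees is equivalent to its case of `k`-connected graphs
with at most `k + g k` vertices and roots of degree `k`, for any unbounded function `g`.

From a `k`-connected graph `G` with root `r` we build a `(k+m)`-connected graph: a new root,
adjacent to `k` hubs and to `m` full vertices (adjacent to everything); for each neighbour `y` of
`r` a middle vertex adjacent to all hubs and to `y`; and `G - r`.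
-/

namespace Pool.Agent.Lib.MP_f76be0_co

open Finset Pool.Agent.Lib.MP_4332cb_co

/-- the vertices of the enlarged graph -/
inductive BV (V : Type) (p q : V → Prop) (k m : ℕ) : Type
  | root : BV V p q k m
  | cen (i : Fin k) : BV V p q k m
  | full (j : Fin m) : BV V p q k m
  | mid (y : V) (h : p y) : BV V p q k m
  | old (x : V) (h : q x) : BV V p q k m

namespace BV

variable {V : Type} {p q : V → Prop} {k m : ℕ}

/-- the vertices as a sum type -/
def toSum : BV V p q k m → (Unit ⊕ Fin k) ⊕ (Fin m ⊕ ({y // p y} ⊕ {x // q x}))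
  | root => Sum.inl (Sum.inl ())
  | cen i => Sum.inl (Sum.inr i)
  | full j => Sum.inr (Sum.inl j)
  | mid y h => Sum.inr (Sum.inr (Sum.inl ⟨y, h⟩))
  | old x h => Sum.inr (Sum.inr (Sum.inr ⟨x, h⟩))

/-- and back -/
def ofSum : (Unit ⊕ Fin k) ⊕ (Fin m ⊕ ({y // p y} ⊕ {x // q x})) → BV V p q k m
  | Sum.inl (Sum.inl ()) => root
  | Sum.inl (Sum.inr i) => cen i
  | Sum.inr (Sum.inl j) => full j
  | Sum.inr (Sum.inr (Sum.inl y)) => mid y.1 y.2
  | Sum.inr (Sum.inr (Sum.inr x)) => old x.1 x.2

/-- equivalence with the sum type -/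
def equivSum : BV V p q k m ≃ (Unit ⊕ Fin k) ⊕ (Fin m ⊕ ({y // p y} ⊕ {x // q x})) where
  toFun := toSum
  invFun := ofSum
  left_inv v := by cases v <;> rfl
  right_inv v := by
    rcases v with (⟨⟩ | i) | (j | (y | x)) <;> rfl

/-- the defining relation of the enlarged graph -/
def rel (G : SimpleGraph V) : BV V p q k m → BV V p q k m → Prop
  | full _, _ => True
  | root, cen _ => True
  | cen _, cen _ => True
  | cen _, mid _ _ => True
  | mid y _, old x _ => y = x
  | old x _, old x' _ => G.Adj x x'
  | _, _ => False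

/-- the enlarged graph -/
def graph (G : SimpleGraph V) : SimpleGraph (BV V p q k m) := SimpleGraph.fromRel (rel G)

/-- projection to the vertices of the old graph -/
def proj (r : V) : BV V p q k m → V
  | root => r
  | cen _ => r
  | full _ => r
  | mid y _ => y
  | old x _ => x

/-- kinds of vertices -/
def kind : BV V p q k m → ℕ
  | root => 0
  | cen _ => 1
  | full _ => 2
  | mid _ _ => 3
  | old _ _ => 4

end BV

open BV

section conn

variable {V : Type} [Fintype V] {G : SimpleGraph V} {r : V} {k m : ℕ}

/-- the enlarged vertex set of `(G, r)` -/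
abbrev BVr (G : SimpleGraph V) (r : V) (k m : ℕ) : Type :=
  BV V (fun y => G.Adj r y) (fun x => x ≠ r) k m

noncomputable instance : Fintype (BVr G r k m) := by
  classical
  exact Fintype.ofEquiv _ BV.equivSum.symm

lemma card_BVr : Fintype.card (BVr G r k m) ≤ k + m + (1 + 2 * Fintype.card V) ∧
    k + m < Fintype.card (BVr G r k m) := by
  classical
  have h : Fintype.card (BVr G r k m) = (1 + k) + (m + (Fintype.card {y // G.Adj r y} +
      Fintype.card {x // x ≠ r})) := by
    rw [Fintype.card_congr (BV.equivSum (V := V) (p := fun y => G.Adj r y) (q := fun x => x ≠ r)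
      (k := k) (m := m))]
    simp only [Fintype.card_sum, Fintype.card_unit, Fintype.card_fin]
  have h1 : Fintype.card {y // G.Adj r y} ≤ Fintype.card V := Fintype.card_subtype_le _
  have h2 : Fintype.card {x // x ≠ r} ≤ Fintype.card V := Fintype.card_subtype_le _
  rw [h]
  constructor
  · omega
  · omega

lemma conn_BVr (hk : KConnected G k) : KConnected (graph G : SimpleGraph (BVr G r k m)) (k + m) := by
  classical
  refine ⟨card_BVr.2, ?_⟩
  intro S hS
  rw [← Cn_iff]
  set T : Set (BVr G r k m) := {v | v ∉ S} with hT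
  by_cases hfull : ∃ j : Fin m, (full j : BVr G r k m) ∉ S
  · obtain ⟨j, hj⟩ := hfull
    refine Cn_of_center (x := full j) hj ?_
    intro y hy
    by_cases hyj : full j = y
    · rw [hyj]; exact RI.refl _
    · refine RI.single ?_ hj hy
      exact (SimpleGraph.fromRel_adj _ _ _).2 ⟨hyj, Or.inl trivial⟩
  push Not at hfull
  -- counting
  have hcount : ∀ a b : ℕ, a ≠ b → ∀ X Y : Finset (BVr G r k m),
      (∀ v ∈ X, kind v = a) → (∀ v ∈ Y, kind v = b) → Disjoint X Y := by
    intro a b hab X Y h1 h2
    rw [Finset.disjoint_left]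
    intro v hv hv'
    exact hab ((h1 v hv).symm.trans (h2 v hv'))
  set S1 := S.filter (fun v => kind v = 1) with hS1
  set S2 := S.filter (fun v => kind v = 2) with hS2
  set S3 := S.filter (fun v => kind v = 3) with hS3
  set S4 := S.filter (fun v => kind v = 4) with hS4
  have hsum : S1.card + S2.card + S3.card + S4.card ≤ S.card := by
    have d12 : Disjoint S1 S2 := hcount 1 2 (by norm_num) _ _
      (fun v hv => (mem_filter.1 hv).2) (fun v hv => (mem_filter.1 hv).2)
    have d34 : Disjoint S3 S4 := hcount 3 4 (by norm_num) _ _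
      (fun v hv => (mem_filter.1 hv).2) (fun v hv => (mem_filter.1 hv).2)
    have dd : Disjoint (S1 ∪ S2) (S3 ∪ S4) := by
      rw [Finset.disjoint_left]
      intro v hv hv'
      rcases mem_union.1 hv with h | h <;> rcases mem_union.1 hv' with h' | h' <;>
      · have e1 := (mem_filter.1 h).2
        have e2 := (mem_filter.1 h').2
        omega
    have hle : (S1 ∪ S2) ∪ (S3 ∪ S4) ⊆ S := by
      refine union_subset (union_subset ?_ ?_) (union_subset ?_ ?_) <;> exact filter_subset _ _
    have := card_le_card hle
    rw [card_union_of_disjoint dd, card_union_of_disjoint d12, card_union_of_disjoint d34] at this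
    omega
  have hm : m ≤ S2.card := by
    have h1 : (univ : Finset (Fin m)).image (fun j => (full j : BVr G r k m)) ⊆ S2 := by
      intro v hv
      obtain ⟨j, _, rfl⟩ := mem_image.1 hv
      exact mem_filter.2 ⟨hfull j, rfl⟩
    have h2 := card_le_card h1
    rwa [card_image_of_injective _ (fun a b h => by cases h; rfl), card_univ,
      Fintype.card_fin] at h2
  obtain ⟨i0, hi0⟩ : ∃ i : Fin k, (cen i : BVr G r k m) ∉ S := by
    by_contra hcon
    push Not at hcon
    have h1 : (univ : Finset (Fin k)).image (fun j => (cen j : BVr G r k m)) ⊆ S1 := by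
      intro v hv
      obtain ⟨j, _, rfl⟩ := mem_image.1 hv
      exact mem_filter.2 ⟨hcon j, rfl⟩
    have h2 := card_le_card h1
    rw [card_image_of_injective _ (fun a b h => by cases h; rfl), card_univ,
      Fintype.card_fin] at h2
    omega
  set X : Finset V := S4.image (proj r) with hX
  set Y : Finset V := S3.image (proj r) with hY
  have hXY : X.card + Y.card < k := by
    have h1 : X.card ≤ S4.card := card_image_le
    have h2 : Y.card ≤ S3.card := card_image_le
    omega
  have hXr : ∀ x ∈ X, x ≠ r := by
    intro x hx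
    obtain ⟨v, hv, rfl⟩ := mem_image.1 hx
    have hk4 := (mem_filter.1 hv).2
    cases v with
    | old x h => exact h
    | _ => simp [kind] at hk4
  refine Cn_of_center (x := cen i0) hi0 ?_
  have hadj1 : ∀ v : BVr G r k m, v ∈ T → (graph G).Adj (cen i0) v → RI (graph G) T (cen i0) v :=
    fun v hv h => RI.single h hi0 hv
  intro v hv
  cases v with
  | root =>
    exact hadj1 _ hv ((SimpleGraph.fromRel_adj _ _ _).2 ⟨by simp, Or.inr trivial⟩)
  | cen i =>
    by_cases hi : cen i0 = (cen i : BVr G r k m)
    · rw [hi]; exact RI.refl _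
    · exact hadj1 _ hv ((SimpleGraph.fromRel_adj _ _ _).2 ⟨hi, Or.inl trivial⟩)
  | full j => exact absurd (hfull j) hv
  | mid y h =>
    exact hadj1 _ hv ((SimpleGraph.fromRel_adj _ _ _).2 ⟨by simp, Or.inl trivial⟩)
  | old x hx =>
    by_contra hcon
    -- the bad vertices
    set Bad : Set V := {b | ∃ h : b ≠ r, (old b h : BVr G r k m) ∉ S ∧
      ¬ RI (graph G) T (cen i0) (old b h)} with hBad
    have f1 : ∀ b ∈ Bad, b ≠ r := fun b hb => hb.1
    have f1' : ∀ b ∈ Bad, b ∉ X := by
      rintro b ⟨h1, h2, _⟩ hbX
      obtain ⟨v, hv, hvb⟩ := mem_image.1 hbX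
      have hk4 := (mem_filter.1 hv).2
      cases v with
      | old x' h' =>
        have hvb' : x' = b := hvb
        subst hvb'
        exact h2 (mem_filter.1 hv).1
      | _ => simp [kind] at hk4
    have fX : ∀ c, ∀ hc : c ≠ r, c ∉ X → (old c hc : BVr G r k m) ∉ S := by
      intro c hc hcX hcS
      exact hcX (mem_image.2 ⟨old c hc, mem_filter.2 ⟨hcS, rfl⟩, rfl⟩)
    have f2 : ∀ b ∈ Bad, ∀ c, G.Adj b c → c ≠ r → c ∉ X → c ∈ Bad := by
      rintro b ⟨h1, h2, h3⟩ c hbc hcr hcX
      have hcS := fX c hcr hcX
      refine ⟨hcr, hcS, fun h4 => h3 (h4.trans (RI.single ?_ hcS h2))⟩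
      refine (SimpleGraph.fromRel_adj _ _ _).2 ⟨?_, Or.inl hbc.symm⟩
      intro h5
      cases h5
      exact hbc.ne rfl
    have f3 : ∀ b ∈ Bad, G.Adj r b → b ∈ Y := by
      rintro b ⟨h1, h2, h3⟩ hrb
      by_contra hbY
      have hmS : (mid b hrb : BVr G r k m) ∉ S := by
        intro h4
        exact hbY (mem_image.2 ⟨mid b hrb, mem_filter.2 ⟨h4, rfl⟩, rfl⟩)
      apply h3
      refine (hadj1 (mid b hrb) hmS ?_).trans (RI.single ?_ hmS h2)
      · exact (SimpleGraph.fromRel_adj _ _ _).2 ⟨by simp, Or.inl trivial⟩
      · exact (SimpleGraph.fromRel_adj _ _ _).2 ⟨by simp, Or.inl rfl⟩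
    have hxBad : x ∈ Bad := ⟨hx, hv, hcon⟩
    set N : Finset V := univ.filter (fun b => b ∈ Bad ∧ G.Adj r b) with hN
    have hNY : N.card ≤ Y.card := card_le_card (fun b hb =>
      f3 b (mem_filter.1 hb).2.1 (mem_filter.1 hb).2.2)
    by_cases hex : ∃ b ∈ Bad, b ∉ N
    · obtain ⟨b, hb, hbN⟩ := hex
      have hc := hk.2 (X ∪ N) (lt_of_le_of_lt (card_union_le _ _) (by omega))
      have hc' := ((Cn_iff G _).2 hc).2 b (by
        intro h
        rcases mem_union.1 h with h | h
        · exact f1' b hb h
        · exact hbN h) r (by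
        intro h
        rcases mem_union.1 h with h | h
        · exact hXr r h rfl
        · exact G.loopless.irrefl _ (mem_filter.1 h).2.2)
      obtain ⟨u, w, huw, huC, hwC, huP, hwP⟩ := cross_edge (P := Bad) hc' hb
        (fun h => f1 r h rfl)
      by_cases hwr : w = r
      · rw [hwr] at huw
        exact huC (mem_union_right _ (mem_filter.2 ⟨mem_univ _, huP, huw.symm⟩))
      · exact hwP (f2 u huP w huw hwr (fun h => hwC (mem_union_left _ h)))
    · push Not at hex
      have hxN := hex x hxBad
      have hxX := f1' x hxBad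
      set Z : Finset V := insert r (X ∪ N.erase x) with hZ
      have hZc : Z.card < k := by
        have h1 : Z.card ≤ (X ∪ N.erase x).card + 1 := card_insert_le _ _
        have h2 := card_union_le X (N.erase x)
        have h3 := card_erase_of_mem hxN
        have h4 : 0 < N.card := card_pos.2 ⟨x, hxN⟩
        omega
      have hxZ : x ∉ Z := by
        intro h
        rcases mem_insert.1 h with h | h
        · exact hx h
        · rcases mem_union.1 h with h | h
          · exact hxX h
          · exact (mem_erase.1 h).1 rfl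
      obtain ⟨w, _, hw⟩ := Finset.exists_mem_notMem_of_card_lt_card (s := insert x Z)
        (t := univ) (by
          have h1 := card_insert_le x Z
          have h2 := hk.1
          rw [card_univ]
          omega)
      have hwx : w ≠ x := fun h => hw (h ▸ mem_insert_self _ _)
      have hwZ : w ∉ Z := fun h => hw (mem_insert_of_mem h)
      have hc := hk.2 Z hZc
      have hc' := ((Cn_iff G _).2 hc).2 x hxZ w hwZ
      obtain ⟨u, w', huw, huC, hwC, huP, hwP⟩ := cross_edge (P := {x}) hc' rfl
        (fun h => hwx h)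
      have hux : u = x := huP
      rw [hux] at huw
      have hw'r : w' ≠ r := fun h => hwC (by rw [h]; exact mem_insert_self _ _)
      have hw'X : w' ∉ X := fun h => hwC (mem_insert_of_mem (mem_union_left _ h))
      have hw'B := f2 x hxBad w' huw hw'r hw'X
      exact hwC (mem_insert_of_mem (mem_union_right _ (mem_erase.2 ⟨fun h => hwP h, hex w' hw'B⟩)))

lemma nbr_root : (graph G : SimpleGraph (BVr G r k m)).neighborSet root =
    Set.range (fun s : Fin k ⊕ Fin m => Sum.elim (fun i => (cen i : BVr G r k m))
      (fun j => full j) s) := by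
  ext v
  rw [SimpleGraph.mem_neighborSet]
  constructor
  · intro h
    obtain ⟨h1, h2⟩ := (SimpleGraph.fromRel_adj _ _ _).1 h
    cases v with
    | root => exact absurd rfl h1
    | cen i => exact ⟨Sum.inl i, rfl⟩
    | full j => exact ⟨Sum.inr j, rfl⟩
    | mid y h => rcases h2 with h2 | h2 <;> exact absurd h2 (by simp [rel])
    | old x h => rcases h2 with h2 | h2 <;> exact absurd h2 (by simp [rel])
  · rintro ⟨s, rfl⟩
    rcases s with i | j
    · exact (SimpleGraph.fromRel_adj _ _ _).2 ⟨by simp, Or.inl trivial⟩
    · exact (SimpleGraph.fromRel_adj _ _ _).2 ⟨by simp, Or.inr trivial⟩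

lemma deg_root : ((graph G : SimpleGraph (BVr G r k m)).neighborSet root).ncard = k + m := by
  rw [nbr_root, ← Set.image_univ, Set.ncard_image_of_injective, Set.ncard_univ, Nat.card_sum,
    Nat.card_fin, Nat.card_fin]
  intro a b h
  rcases a with i | j <;> rcases b with i' | j' <;> simp at h ⊢ <;> exact h

end conn

end Pool.Agent.Lib.MP_f76be0_co
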