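import Pool.Agent.Lib.MP_f76be0_co.Core

/-!
Cores in graphs that are not separated by small sets.
-/

namespace Pool.Agent.Lib.MP_f76be0_co

open Finset Pool.Agent.Lib.MP_4332cb_co

variable {V : Type*} [Fintype V] [DecidableEq V] (G : SimpleGraph V) [DecidableRel G.Adj]

lemma covered_mono {D D' : Finset V} (h : D ⊆ D') : covered G D ⊆ covered G D' := by
  intro u hu
  obtain ⟨s, hs, hs'⟩ := (mem_filter.1 hu).2
  exact mem_filter.2 ⟨mem_univ _, s, h hs, hs'⟩

lemma dom_of_uncovered {D : Finset V} {δ X : ℕ} (hδ : ∀ v, δ ≤ (univ.filter (fun u => G.Adj v u)).card)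
    (hX : (univ \ covered G D).card ≤ X) (x : V) :
    δ - X ≤ ((covered G D).filter (fun u => G.Adj x u)).card := by
  have h1 : univ.filter (fun u => G.Adj x u) ⊆
      (covered G D).filter (fun u => G.Adj x u) ∪ (univ \ covered G D) := by
    intro u hu
    have hu' := (mem_filter.1 hu).2
    by_cases h : u ∈ covered G D
    · exact mem_union_left _ (mem_filter.2 ⟨h, hu'⟩)
    · exact mem_union_right _ (mem_sdiff.2 ⟨mem_univ _, h⟩)
  have h2 := (card_le_card h1).trans (card_union_le _ _)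
  have h3 := hδ x
  omega

lemma deg_avoid {δ : ℕ} (hδ : ∀ v, δ ≤ (univ.filter (fun u => G.Adj v u)).card) (Q : Finset V)
    (v : V) : δ - Q.card ≤ (univ.filter (fun u => G.Adj v u ∧ u ∉ Q)).card := by
  have h1 : univ.filter (fun u => G.Adj v u ∧ u ∉ Q) = univ.filter (fun u => G.Adj v u) \ Q := by
    ext u
    simp only [mem_filter, mem_univ, true_and, mem_sdiff]
  rw [h1]
  have h2 := le_card_sdiff Q (univ.filter (fun u => G.Adj v u))
  have h3 := hδ v
  omega

/-- a core avoiding `Q` when `G - Q` is connected -/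
theorem core_one {r : V} {Q : Finset V} {δ m l X : ℕ} (hrQ : r ∈ Q)
    (hδ : ∀ v, δ ≤ (univ.filter (fun u => G.Adj v u)).card)
    (hconn : ∀ x y, x ∉ Q → y ∉ Q → RI G {v | v ∉ Q} x y)
    (hQ : Q.card < δ) (hl : 3 * Fintype.card V < (l + 1) * (δ - Q.card))
    (hX : ∀ t : ℕ, t * (Fintype.card V) ^ m ≤
      (Fintype.card V - (δ - Q.card)) ^ m * Fintype.card V → t ≤ X) :
    ∃ S : Finset V, Disjoint S Q ∧ S.card ≤ 1 + m * l ∧
      (∀ x ∈ S, RI G (insert r (S : Set V)) r x) ∧
      ∀ x, δ - X ≤ ((covered G S).filter (fun u => G.Adj x u)).card := by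
  classical
  set e := δ - Q.card with he
  have hdeg := deg_avoid G hδ Q
  -- hubs
  obtain ⟨D, hD1, hD2, hD3⟩ := cover G (univ.filter (fun u => u ∉ Q)) e (by
    intro u
    refine (hdeg u).trans (card_le_card ?_)
    intro z hz
    have hz' := (mem_filter.1 hz).2
    exact mem_filter.2 ⟨mem_filter.2 ⟨mem_univ _, hz'.2⟩, hz'.1⟩) (by omega) m
  have hunc := hX _ hD3
  -- a neighbour of `r`
  obtain ⟨r', hr'⟩ : ∃ r', G.Adj r r' ∧ r' ∉ Q := by
    have h1 := hdeg r
    obtain ⟨z, hz⟩ := card_pos.1 (show 0 < (univ.filter (fun u => G.Adj r u ∧ u ∉ Q)).card by omega)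
    exact ⟨z, (mem_filter.1 hz).2⟩
  have hlink : ∀ h, ∃ C : Finset V, h ∈ D → r' ∈ C ∧ h ∈ C ∧ Disjoint C Q ∧
      (∀ z ∈ C, RI G (C : Set V) r' z) ∧ C.card ≤ l := by
    intro h
    by_cases hh : h ∈ D
    · have hhQ : h ∉ Q := (mem_filter.1 (hD1 hh)).2
      obtain ⟨C, h1, h2, h3, h4, h5⟩ := short_link G Q e (fun v _ => hdeg v) hr'.2
        (hconn r' h hr'.2 hhQ)
      refine ⟨C, fun _ => ⟨h1, h2, h3, h4, ?_⟩⟩
      by_contra hcon
      push Not at hcon
      have h6 : (l + 1) * e ≤ C.card * e := Nat.mul_le_mul_right _ hcon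
      omega
    · exact ⟨∅, fun h' => absurd h' hh⟩
  choose C hC using hlink
  refine ⟨insert r' (D.biUnion C), ?_, ?_, ?_, ?_⟩
  · rw [Finset.disjoint_left]
    intro z hz hzQ
    rcases mem_insert.1 hz with h | h
    · exact hr'.2 (h ▸ hzQ)
    · obtain ⟨h, hh, hz'⟩ := mem_biUnion.1 h
      exact Finset.disjoint_left.1 (hC h hh).2.2.1 hz' hzQ
  · have h1 := card_insert_le r' (D.biUnion C)
    have h2 : (D.biUnion C).card ≤ D.card * l :=
      card_biUnion_le_card_mul D C l (fun h hh => (hC h hh).2.2.2.2)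
    have h3 : D.card * l ≤ m * l := Nat.mul_le_mul_right _ hD2
    omega
  · intro x hx
    have hr'm : r' ∈ insert r ((insert r' (D.biUnion C) : Finset V) : Set V) := by
      right
      exact_mod_cast mem_insert_self _ _
    have h0 : RI G (insert r ((insert r' (D.biUnion C) : Finset V) : Set V)) r r' :=
      RI.single hr'.1 (Set.mem_insert _ _) hr'm
    rcases mem_insert.1 hx with h | h
    · rw [h]; exact h0
    · obtain ⟨h, hh, hz'⟩ := mem_biUnion.1 h
      refine h0.trans (((hC h hh).2.2.2.1 x hz').monoS ?_)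
      intro z hz
      right
      exact_mod_cast mem_insert_of_mem (mem_biUnion.2 ⟨h, hh, by exact_mod_cast hz⟩)
  · intro x
    have h1 := dom_of_uncovered G hδ hunc x
    refine h1.trans (card_le_card (filter_subset_filter _ (covered_mono G ?_)))
    intro h hh
    exact mem_insert_of_mem (mem_biUnion.2 ⟨h, hh, (hC h hh).2.1⟩)

/-- independent spanning trees when no small set separates the graph -/
theorem case_one {r : V} {k δ m l X : ℕ}
    (hδ : ∀ v, δ ≤ (univ.filter (fun u => G.Adj v u)).card)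
    (hconn : ∀ Q : Finset V, r ∈ Q → Q.card ≤ 1 + (1 + m * l) * k →
      ∀ x y, x ∉ Q → y ∉ Q → RI G {v | v ∉ Q} x y)
    (hQ : 1 + (1 + m * l) * k < δ)
    (hl : 3 * Fintype.card V < (l + 1) * (δ - (1 + (1 + m * l) * k)))
    (hX : ∀ t : ℕ, t * (Fintype.card V) ^ m ≤
      (Fintype.card V - (δ - (1 + (1 + m * l) * k))) ^ m * Fintype.card V → t ≤ X)
    (hfin : k + 1 + k * (1 + m * l) + X ≤ δ) :
    ∃ T : Fin k → SimpleGraph V, (∀ i, T i ≤ G ∧ (T i).IsTree) ∧
      ∀ i j, i ≠ j → Independent r (T i) (T j) := by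
  classical
  obtain ⟨S, h1, h2⟩ := greedy k (1 + m * l) {r}
    (fun _ S => (∀ x ∈ S, RI G (insert r (S : Set V)) r x) ∧
      ∀ x, δ - X ≤ ((covered G S).filter (fun u => G.Adj x u)).card) (by
    intro i Q _ hsub hQc
    rw [card_singleton] at hQc
    have hrQ : r ∈ Q := hsub (mem_singleton_self r)
    obtain ⟨S, g1, g2, g3, g4⟩ := core_one G (r := r) (Q := Q) (δ := δ) (m := m) (l := l) (X := X)
      hrQ hδ (hconn Q hrQ hQc) (by omega)
      (lt_of_lt_of_le hl (Nat.mul_le_mul_left _ (by omega))) (by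
        intro t ht
        refine hX t (ht.trans (Nat.mul_le_mul_right _ (Nat.pow_le_pow_left ?_ _)))
        omega)
    exact ⟨S, g1, g2, g3, g4⟩)
  refine of_cores G r k (δ - X) (fun i => S i) ?_ ?_ ?_ ?_ ?_
  · intro i hi
    exact Finset.disjoint_left.1 (h1 i i.2).1 hi (mem_singleton_self r)
  · intro i j hij
    exact h2 i i.2 j j.2 (fun h => hij (Fin.ext h))
  · intro i
    exact (h1 i i.2).2.2.1
  · have h3 : ∑ i : Fin k, (S i).card ≤ k * (1 + m * l) := by
      calc ∑ i : Fin k, (S i).card ≤ ∑ i : Fin k, (1 + m * l) :=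
            sum_le_sum (fun i _ => (h1 i i.2).2.1)
        _ = k * (1 + m * l) := by rw [sum_const, card_univ, Fintype.card_fin, smul_eq_mul]
    omega
  · intro x i
    exact (h1 i i.2).2.2.2 x

end Pool.Agent.Lib.MP_f76be0_co
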