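import Pool.Agent.Lib.MP_f76be0_co.CaseOne
import Pool.Agent.Lib.MP_f76be0_co.Two

/-!
Cores in graphs with a small separating set: two clusters joined by a matching.
-/

namespace Pool.Agent.Lib.MP_f76be0_co

open Finset Pool.Agent.Lib.MP_4332cb_co

variable {V : Type*} [Fintype V] [DecidableEq V] (G : SimpleGraph V) [DecidableRel G.Adj]

lemma exists_fresh {X : Finset V} {p : V → Prop} [DecidablePred p] {Q : Finset V}
    (h : Q.card < (X.filter p).card) : ∃ v ∈ X, p v ∧ v ∉ Q := by
  obtain ⟨v, hv1, hv2⟩ := Finset.exists_mem_notMem_of_card_lt_card h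
  exact ⟨v, (mem_filter.1 hv1).1, (mem_filter.1 hv1).2, hv2⟩

/-- a core through the edge `a b` between the clusters -/
theorem core_two {r : V} {A B Q : Finset V} {a b : V} (hab : G.Adj a b)
    (hAA : ∀ u ∈ A, ∀ v ∈ A, Q.card < (A.filter (fun z => G.Adj u z ∧ G.Adj v z)).card)
    (hBB : ∀ u ∈ B, ∀ v ∈ B, Q.card < (B.filter (fun z => G.Adj u z ∧ G.Adj v z)).card)
    (hr : Q.card < (A.filter (fun z => G.Adj r z)).card)
    (ha : Q.card < (A.filter (fun z => G.Adj a z)).card)
    (hb : Q.card < (B.filter (fun z => G.Adj b z)).card)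
    {D : Finset V} (hD : D ⊆ (A ∪ B) \ Q) (hDc : D.card ≤ 3) :
    ∃ S : Finset V, D ⊆ S ∧ Disjoint S Q ∧ S.card ≤ 10 ∧
      ∀ x ∈ S ∪ ({a, b} : Finset V), RI G (insert r ((S ∪ ({a, b} : Finset V) : Finset V) : Set V)) r x := by
  classical
  obtain ⟨r', hr'A, hr'1, hr'Q⟩ := exists_fresh hr
  obtain ⟨a', ha'A, ha'1, ha'Q⟩ := exists_fresh ha
  obtain ⟨b', hb'B, hb'1, hb'Q⟩ := exists_fresh hb
  obtain ⟨c, hcA, hc1, hcQ⟩ := exists_fresh (hAA r' hr'A a' ha'A)
  have hlink : ∀ d, ∃ z, d ∈ D → z ∉ Q ∧ G.Adj z d ∧ (G.Adj r' z ∨ G.Adj b' z) := by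
    intro d
    by_cases hd : d ∈ D
    · have h1 := mem_sdiff.1 (hD hd)
      rcases mem_union.1 h1.1 with h | h
      · obtain ⟨z, _, hz, hzQ⟩ := exists_fresh (hAA r' hr'A d h)
        exact ⟨z, fun _ => ⟨hzQ, hz.2.symm, Or.inl hz.1⟩⟩
      · obtain ⟨z, _, hz, hzQ⟩ := exists_fresh (hBB b' hb'B d h)
        exact ⟨z, fun _ => ⟨hzQ, hz.2.symm, Or.inr hz.1⟩⟩
    · exact ⟨d, fun h => absurd h hd⟩
  choose l hl using hlink
  set S : Finset V := {r', a', b', c} ∪ (D ∪ D.image l) with hS
  have m1 : r' ∈ S := by rw [hS]; simp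
  have m2 : a' ∈ S := by rw [hS]; simp
  have m3 : b' ∈ S := by rw [hS]; simp
  have m4 : c ∈ S := by rw [hS]; simp
  have m5 : D ⊆ S := by
    rw [hS]
    exact subset_union_left.trans subset_union_right
  have m6 : ∀ d ∈ D, l d ∈ S := by
    intro d hd
    rw [hS]
    exact mem_union_right _ (mem_union_right _ (mem_image_of_mem _ hd))
  refine ⟨S, m5, ?_, ?_, ?_⟩
  · rw [Finset.disjoint_left]
    intro z hz hzQ
    rw [hS] at hz
    rcases mem_union.1 hz with h | h
    · simp only [mem_insert, mem_singleton] at h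
      rcases h with rfl | rfl | rfl | rfl
      · exact hr'Q hzQ
      · exact ha'Q hzQ
      · exact hb'Q hzQ
      · exact hcQ hzQ
    · rcases mem_union.1 h with h | h
      · exact (mem_sdiff.1 (hD h)).2 hzQ
      · obtain ⟨d, hd, rfl⟩ := mem_image.1 h
        exact (hl d hd).1 hzQ
  · have h1 : ({r', a', b', c} : Finset V).card ≤ 4 := card_le_four
    have h2 : (D.image l).card ≤ D.card := card_image_le
    have h3 := card_union_le D (D.image l)
    have h4 : S.card ≤ _ := card_union_le {r', a', b', c} (D ∪ D.image l)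
    omega
  · set T : Set V := insert r ((S ∪ ({a, b} : Finset V) : Finset V) : Set V) with hT
    have hST : ∀ z ∈ S, z ∈ T := by
      intro z hz
      right
      exact_mod_cast mem_union_left _ hz
    have hrT : r ∈ T := Set.mem_insert _ _
    have haT : a ∈ T := by
      right
      exact_mod_cast mem_union_right S (by simp)
    have hbT : b ∈ T := by
      right
      exact_mod_cast mem_union_right S (by simp)
    have c1 : RI G T r r' := RI.single hr'1 hrT (hST _ m1)
    have c2 : RI G T r c := c1.trans (RI.single hc1.1 (hST _ m1) (hST _ m4))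
    have c3 : RI G T r a' := c2.trans (RI.single hc1.2.symm (hST _ m4) (hST _ m2))
    have c4 : RI G T r a := c3.trans (RI.single ha'1.symm (hST _ m2) haT)
    have c5 : RI G T r b := c4.trans (RI.single hab haT hbT)
    have c6 : RI G T r b' := c5.trans (RI.single hb'1 hbT (hST _ m3))
    have c7 : ∀ d ∈ D, RI G T r (l d) := by
      intro d hd
      rcases (hl d hd).2.2 with h | h
      · exact c1.trans (RI.single h (hST _ m1) (hST _ (m6 d hd)))
      · exact c6.trans (RI.single h (hST _ m3) (hST _ (m6 d hd)))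
    have c8 : ∀ d ∈ D, RI G T r d := fun d hd =>
      (c7 d hd).trans (RI.single (hl d hd).2.1 (hST _ (m6 d hd)) (hST _ (m5 hd)))
    intro x hx
    rcases mem_union.1 hx with h | h
    · rw [hS] at h
      rcases mem_union.1 h with h | h
      · simp only [mem_insert, mem_singleton] at h
        rcases h with rfl | rfl | rfl | rfl
        · exact c1
        · exact c3
        · exact c6
        · exact c2
      · rcases mem_union.1 h with h | h
        · exact c8 x h
        · obtain ⟨d, hd, rfl⟩ := mem_image.1 h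
          exact c7 d hd
    · simp only [mem_insert, mem_singleton] at h
      rcases h with rfl | rfl
      · exact c4
      · exact c5

/-- independent spanning trees in two clusters joined by a matching -/
theorem case_two {r : V} {k δ : ℕ} (hk1 : 1 ≤ k) (hk : KConnected G k)
    (hδ : ∀ v, δ ≤ (univ.filter (fun u => G.Adj v u)).card)
    (hδn : 9 * Fintype.card V + 378 * k ≤ 27 * δ + Fintype.card V)
    (A B : Finset V) (P : Set V) (hrP : r ∈ P)
    (hAP : ∀ v ∈ A, v ∈ P) (hBP : ∀ v ∈ B, v ∉ P) (hB : k ≤ B.card)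
    (hAA : ∀ u ∈ A, ∀ v ∈ A, 13 * k < (A.filter (fun z => G.Adj u z ∧ G.Adj v z)).card)
    (hBB : ∀ u ∈ B, ∀ v ∈ B, 13 * k < (B.filter (fun z => G.Adj u z ∧ G.Adj v z)).card)
    (hPA : ∀ v ∈ P, 13 * k < (A.filter (fun z => G.Adj v z)).card)
    (hPB : ∀ v, v ∉ P → 13 * k < (B.filter (fun z => G.Adj v z)).card)
    (he : ∀ u, Fintype.card V + 39 * k ≤ 3 * ((A ∪ B).filter (fun z => G.Adj u z)).card) :
    ∃ T : Fin k → SimpleGraph V, (∀ i, T i ≤ G ∧ (T i).IsTree) ∧
      ∀ i j, i ≠ j → Independent r (T i) (T j) := by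
  classical
  have hA : k ≤ A.card := by
    have h1 := hPA r hrP
    have h2 : (A.filter (fun z => G.Adj r z)).card ≤ A.card := card_filter_le _ _
    omega
  obtain ⟨a, b, hab, haP, hbP, hane, hbne⟩ := matching hk P A B hA hB hAP hBP
  set Z : ℕ → Finset V := fun i => if h : i < k then ({a ⟨i, h⟩, b ⟨i, h⟩} : Finset V).erase r
    else ∅ with hZ
  have hZi : ∀ i : Fin k, Z i = ({a i, b i} : Finset V).erase r := by
    intro i
    simp only [hZ, i.2, dif_pos]
  have hZc : ∀ i, (Z i).card ≤ 2 := by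
    intro i
    by_cases h : i < k
    · simp only [hZ, h, dif_pos]
      exact (card_le_card (erase_subset _ _)).trans card_le_two
    · simp [hZ, h]
  set Q0 : Finset V := insert r ((range k).biUnion Z) with hQ0
  have hrQ0 : r ∈ Q0 := mem_insert_self _ _
  have hZQ0 : ∀ i < k, Z i ⊆ Q0 := fun i hi z hz =>
    mem_insert_of_mem (mem_biUnion.2 ⟨i, mem_range.2 hi, hz⟩)
  have hQ0c : Q0.card ≤ 1 + 2 * k := by
    have h1 : Q0.card ≤ ((range k).biUnion Z).card + 1 := card_insert_le _ _
    have h2 : ((range k).biUnion Z).card ≤ (range k).card * 2 :=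
      card_biUnion_le_card_mul _ _ _ (fun i _ => hZc i)
    rw [card_range] at h2
    omega
  have hinsZ : ∀ (i : Fin k) (S : Finset V),
      (insert r ((S ∪ ({a i, b i} : Finset V) : Finset V) : Set V)) =
        insert r ((S ∪ Z i : Finset V) : Set V) := by
    intro i S
    rw [hZi i]
    ext z
    simp only [Set.mem_insert_iff, mem_coe, mem_union, mem_insert, mem_singleton, mem_erase]
    by_cases hz : z = r
    · simp [hz]
    · simp [hz]
  have hV : 0 < Fintype.card V := Fintype.card_pos_iff.2 ⟨r⟩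
  obtain ⟨S, h1, h2⟩ := greedy k 10 Q0
    (fun i S => (∀ x ∈ S ∪ Z i, RI G (insert r ((S ∪ Z i : Finset V) : Set V)) r x) ∧
      ∀ x, 14 * k ≤ ((covered G S).filter (fun u => G.Adj x u)).card) (by
    intro i Q hi hsub hQc
    have hQ13 : Q.card ≤ 13 * k := by omega
    -- hubs
    set W : Finset V := (A ∪ B) \ Q with hW
    obtain ⟨e, he3, heW⟩ : ∃ e, Fintype.card V ≤ 3 * e ∧
        ∀ u, e ≤ (W.filter (fun w => G.Adj u w)).card := by
      refine ⟨(Fintype.card V + 2) / 3, by omega, ?_⟩
      intro u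
      have h3 : W.filter (fun w => G.Adj u w) = ((A ∪ B).filter (fun z => G.Adj u z)) \ Q := by
        ext z
        simp only [hW, mem_filter, mem_sdiff]
        tauto
      rw [h3]
      have h4 := le_card_sdiff Q ((A ∪ B).filter (fun z => G.Adj u z))
      have h5 := he u
      omega
    obtain ⟨D, hD1, hD2, hD3⟩ := cover G W e heW (by omega) 3
    have hen : e ≤ Fintype.card V := (heW r).trans
      ((card_le_card (filter_subset _ _)).trans (card_le_univ _))
    have hunc : 27 * (univ \ covered G D).card ≤ 8 * Fintype.card V := by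
      set n := Fintype.card V with hn
      set t := (univ \ covered G D).card with ht
      have h3 : 3 * (n - e) ≤ 2 * n := by omega
      have h4 : (3 * (n - e)) ^ 3 ≤ (2 * n) ^ 3 := Nat.pow_le_pow_left h3 3
      have h5 : 27 * t * n ^ 3 ≤ 8 * n * n ^ 3 := by
        calc 27 * t * n ^ 3 = 27 * (t * n ^ 3) := by ring
          _ ≤ 27 * ((n - e) ^ 3 * n) := Nat.mul_le_mul_left _ hD3
          _ = (3 * (n - e)) ^ 3 * n := by ring
          _ ≤ (2 * n) ^ 3 * n := Nat.mul_le_mul_right _ h4
          _ = 8 * n * n ^ 3 := by ring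
      exact Nat.le_of_mul_le_mul_right h5 (pow_pos hV 3)
    obtain ⟨S, g1, g2, g3, g4⟩ := core_two G (r := r) (hab ⟨i, hi⟩) (Q := Q) (A := A) (B := B)
      (fun u hu v hv => lt_of_le_of_lt hQ13 (hAA u hu v hv))
      (fun u hu v hv => lt_of_le_of_lt hQ13 (hBB u hu v hv))
      (lt_of_le_of_lt hQ13 (hPA r hrP)) (lt_of_le_of_lt hQ13 (hPA _ (haP ⟨i, hi⟩)))
      (lt_of_le_of_lt hQ13 (hPB _ (hbP ⟨i, hi⟩))) hD1 hD2
    refine ⟨S, g2, g3, ?_, ?_⟩
    · have h3 := hinsZ ⟨i, hi⟩ S
      simp only at h3
      rw [← h3]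
      intro x hx
      apply g4 x
      rcases mem_union.1 hx with h | h
      · exact mem_union_left _ h
      · have h5 := hZi ⟨i, hi⟩
        simp only at h5
        rw [h5] at h
        exact mem_union_right _ (mem_erase.1 h).2
    · intro x
      have h3 := dom_of_uncovered G hδ (le_refl (univ \ covered G D).card) x
      have h4 := h3.trans (card_le_card (filter_subset_filter (fun u => G.Adj x u) (covered_mono G g1)))
      omega)
  refine of_cores G r k (14 * k) (fun i => S i ∪ Z i) ?_ ?_ ?_ ?_ ?_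
  · intro i hi
    rcases mem_union.1 hi with h | h
    · exact Finset.disjoint_left.1 (h1 i i.2).1 h hrQ0
    · rw [hZi i] at h
      exact (mem_erase.1 h).1 rfl
  · intro i j hij
    have hij' : (i : ℕ) ≠ j := fun h => hij (Fin.ext h)
    rw [Finset.disjoint_left]
    intro z hz hz'
    rcases mem_union.1 hz with h | h
    · rcases mem_union.1 hz' with h' | h'
      · exact Finset.disjoint_left.1 (h2 i i.2 j j.2 hij') h h'
      · exact Finset.disjoint_left.1 (h1 i i.2).1 h (hZQ0 j j.2 h')
    · rcases mem_union.1 hz' with h' | h'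
      · exact Finset.disjoint_left.1 (h1 j j.2).1 h' (hZQ0 i i.2 h)
      · rw [hZi] at h h'
        have h3 := (mem_erase.1 h).2
        have h4 := (mem_erase.1 h').2
        simp only [mem_insert, mem_singleton] at h3 h4
        rcases h3 with h3 | h3 <;> rcases h4 with h4 | h4
        · exact hane i j hij (h3.symm.trans h4)
        · exact hbP j (h4 ▸ h3 ▸ haP i)
        · exact hbP i (h3 ▸ h4 ▸ haP j)
        · exact hbne i j hij (h3.symm.trans h4)
  · intro i x hx
    exact (h1 i i.2).2.2.1 x hx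
  · have h3 : ∑ i : Fin k, (S i ∪ Z i).card ≤ k * 12 := by
      calc ∑ i : Fin k, (S i ∪ Z i).card ≤ ∑ i : Fin k, 12 := by
            refine sum_le_sum (fun i _ => ?_)
            have h4 := card_union_le (S i) (Z i)
            have h5 := (h1 i i.2).2.1
            have h6 := hZc i
            omega
        _ = k * 12 := by rw [sum_const, card_univ, Fintype.card_fin, smul_eq_mul]
    omega
  · intro x i
    exact ((h1 i i.2).2.2.2 x).trans (card_le_card (filter_subset_filter _
      (covered_mono G subset_union_left)))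

end Pool.Agent.Lib.MP_f76be0_co
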