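import Mathlib

/-!
A union bound: a colouring in which every set of a small family of large sets sees all colours.
-/

namespace Pool.Agent.Lib.MP_f76be0_co

open Finset

theorem exists_coloring {V ι : Type*} [Fintype V] [Fintype ι] (k t : ℕ) (hk : 1 ≤ k)
    (S : ι → Finset V) (hS : ∀ i, t ≤ (S i).card)
    (hn : Fintype.card ι * (k * (k - 1) ^ t) < k ^ t) :
    ∃ col : V → Fin k, ∀ i c, ∃ v ∈ S i, col v = c := by
  classical
  rcases isEmpty_or_nonempty ι with hι | ⟨⟨i0⟩⟩
  · exact ⟨fun _ => ⟨0, hk⟩, fun i => (hι.false i).elim⟩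
  have htn : t ≤ Fintype.card V := (hS i0).trans (card_le_univ _)
  choose S' hS' hcard using fun i => Finset.exists_subset_card_eq (hS i)
  let bad : ι × Fin k → Finset (V → Fin k) := fun p =>
    Fintype.piFinset (fun v => if v ∈ S' p.1 then univ.erase p.2 else univ)
  have hbad : ∀ p, (bad p).card = (k - 1) ^ t * k ^ (Fintype.card V - t) := by
    intro p
    simp only [bad, Fintype.card_piFinset]
    have h1 : ∀ v : V, (if v ∈ S' p.1 then (univ.erase p.2 : Finset (Fin k)) else univ).card =
        if v ∈ S' p.1 then k - 1 else k := by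
      intro v
      split_ifs
      · rw [card_erase_of_mem (mem_univ _), card_univ, Fintype.card_fin]
      · rw [card_univ, Fintype.card_fin]
    rw [Finset.prod_congr rfl (fun v _ => h1 v), Finset.prod_ite, prod_const, prod_const]
    have h2 : (univ.filter (fun v => v ∈ S' p.1)) = S' p.1 := by ext v; simp
    have h3 : (univ.filter (fun v => v ∉ S' p.1)).card = Fintype.card V - t := by
      have : (univ.filter (fun v => v ∉ S' p.1)) = (S' p.1)ᶜ := by ext v; simp
      rw [this, card_compl, hcard]
    rw [h2, h3, hcard]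
  have hlt : (univ.biUnion bad).card < Fintype.card (V → Fin k) := by
    calc (univ.biUnion bad).card ≤ ∑ p : ι × Fin k, (bad p).card := card_biUnion_le
      _ = Fintype.card ι * k * ((k - 1) ^ t * k ^ (Fintype.card V - t)) := by
          rw [Finset.sum_congr rfl (fun p _ => hbad p), sum_const, card_univ, Fintype.card_prod,
            Fintype.card_fin, smul_eq_mul]
      _ = (Fintype.card ι * (k * (k - 1) ^ t)) * k ^ (Fintype.card V - t) := by ring
      _ < k ^ t * k ^ (Fintype.card V - t) :=
          Nat.mul_lt_mul_of_pos_right hn (pow_pos hk _)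
      _ = Fintype.card (V → Fin k) := by
          rw [← pow_add, Nat.add_sub_cancel' htn, Fintype.card_fun, Fintype.card_fin]
  obtain ⟨col, hcol⟩ : ∃ col : V → Fin k, col ∉ univ.biUnion bad := by
    by_contra hcon
    push Not at hcon
    have : univ.biUnion bad = univ := by
      ext c; exact ⟨fun _ => mem_univ _, fun _ => hcon c⟩
    rw [this, card_univ] at hlt
    exact lt_irrefl _ hlt
  refine ⟨col, fun i c => ?_⟩
  by_contra hcon
  push Not at hcon
  apply hcol
  rw [mem_biUnion]
  refine ⟨(i, c), mem_univ _, ?_⟩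
  simp only [bad, Fintype.mem_piFinset]
  intro v
  split_ifs with hv
  · rw [mem_erase]
    exact ⟨hcon v (hS' i hv), mem_univ _⟩
  · exact mem_univ _

/-- the numerical condition of the union bound -/
theorem numeric (n k t : ℕ) (hn : 3 ≤ n) (hk : 1 ≤ k) (hkn : k ≤ n)
    (ht : 4 * (k : ℝ) * Real.log n < t) : 3 * n ^ 2 * (k * (k - 1) ^ t) < k ^ t := by
  have hk0 : (0 : ℝ) < k := by exact_mod_cast hk
  have hn0 : (0 : ℝ) < n := by positivity
  have h1 : ((k : ℝ) - 1) / k ≤ Real.exp (-(1 / k)) := by
    have := Real.add_one_le_exp (-(1 / (k : ℝ)))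
    have e : ((k : ℝ) - 1) / k = -(1 / k) + 1 := by field_simp; ring
    rw [e]; exact this
  have h0 : 0 ≤ ((k : ℝ) - 1) / k := by
    apply div_nonneg _ hk0.le
    have : (1 : ℝ) ≤ k := by exact_mod_cast hk
    linarith
  have h2 : (((k : ℝ) - 1) / k) ^ t < 1 / (3 * n ^ 2 * k) := by
    calc (((k : ℝ) - 1) / k) ^ t ≤ (Real.exp (-(1 / k))) ^ t := pow_le_pow_left₀ h0 h1 t
      _ = Real.exp (-(t / k)) := by
          rw [← Real.exp_nat_mul]; congr 1; ring
      _ < Real.exp (-(4 * Real.log n)) := by
          apply Real.exp_lt_exp.2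
          apply neg_lt_neg
          rw [lt_div_iff₀ hk0]
          linarith
      _ = 1 / (n : ℝ) ^ 4 := by
          rw [Real.exp_neg, mul_comm, Real.exp_mul, Real.exp_log hn0, one_div]
          norm_cast
      _ ≤ 1 / (3 * n ^ 2 * k) := by
          apply one_div_le_one_div_of_le (by positivity)
          have h3 : (3 : ℝ) ≤ n := by exact_mod_cast hn
          have h4 : (k : ℝ) ≤ n := by exact_mod_cast hkn
          calc 3 * (n : ℝ) ^ 2 * k ≤ n * (n : ℝ) ^ 2 * n := by gcongr
            _ = (n : ℝ) ^ 4 := by ring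
  rw [div_pow, div_lt_div_iff₀ (by positivity) (by positivity)] at h2
  have h3 : ((3 * n ^ 2 * (k * (k - 1) ^ t) : ℕ) : ℝ) < ((k ^ t : ℕ) : ℝ) := by
    push_cast [Nat.cast_sub hk]
    linarith
  exact_mod_cast h3

end Pool.Agent.Lib.MP_f76be0_co
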