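import Pool.Agent.Lib.MP_f76be0_co.Depth

/-!
Graphs in which nonadjacent vertices have at least `k` common neighbours.
-/

namespace Pool.Agent.Lib.MP_f76be0_co

open Finset Pool.Agent.Lib.MP_4332cb_co

/-- distinct representatives when every set is at least as large as the index set -/
lemma choose_inj {ι α : Type*} [DecidableEq ι] [DecidableEq α] (d : α) (I : Finset ι)
    (t : ι → Finset α) (h : ∀ i ∈ I, I.card ≤ (t i).card) :
    ∃ w : ι → α, (∀ i ∈ I, w i ∈ t i) ∧ ∀ i ∈ I, ∀ j ∈ I, i ≠ j → w i ≠ w j := by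
  classical
  have hall : ∀ s : Finset {i // i ∈ I}, s.card ≤ (s.biUnion (fun i => t i.1)).card := by
    intro s
    rcases s.eq_empty_or_nonempty with rfl | ⟨a, ha⟩
    · simp
    · have h1 : s.card ≤ I.card := by
        have := card_le_univ s
        rwa [Fintype.card_coe] at this
      have h2 : t a.1 ⊆ s.biUnion (fun i => t i.1) := fun y hy => mem_biUnion.2 ⟨a, ha, hy⟩
      exact (h1.trans (h a.1 a.2)).trans (card_le_card h2)
  obtain ⟨f, hf1, hf2⟩ := (Finset.all_card_le_biUnion_card_iff_exists_injective _).1 hall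
  refine ⟨fun i => if hi : i ∈ I then f ⟨i, hi⟩ else d, ?_, ?_⟩
  · intro i hi
    simp only [hi, dif_pos]
    exact hf2 ⟨i, hi⟩
  · intro i hi j hj hij he
    simp only [hi, hj, dif_pos] at he
    exact hij (congrArg Subtype.val (hf1 he))

theorem common_connected {V : Type*} [Fintype V] (G : SimpleGraph V) (k : ℕ)
    (hn : k < Fintype.card V)
    (h : ∀ x y, x ≠ y → ¬ G.Adj x y → k ≤ (G.commonNeighbors x y).ncard) :
    KConnected G k := by
  classical
  refine ⟨hn, ?_⟩
  intro S hS
  rw [← Cn_iff]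
  constructor
  · obtain ⟨v, _, hv⟩ := Finset.exists_mem_notMem_of_card_lt_card
      (s := S) (t := univ) (by rw [card_univ]; omega)
    exact ⟨v, hv⟩
  · intro x hx y hy
    by_cases hxy : x = y
    · rw [hxy]; exact RI.refl _
    · by_cases ha : G.Adj x y
      · exact RI.single ha hx hy
      · have h1 := h x y hxy ha
        rw [Set.ncard_eq_toFinset_card'] at h1
        obtain ⟨z, hz1, hz2⟩ := Finset.exists_mem_notMem_of_card_lt_card
          (s := S) (t := (G.commonNeighbors x y).toFinset) (by omega)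
        rw [Set.mem_toFinset, SimpleGraph.mem_commonNeighbors] at hz1
        exact (RI.single hz1.1 hx hz2).trans (RI.single hz1.2.symm hz2 hy)

theorem common_trees {V : Type*} [Fintype V] (G : SimpleGraph V) (k : ℕ)
    (hn : k < Fintype.card V)
    (h : ∀ x y, x ≠ y → ¬ G.Adj x y → k ≤ (G.commonNeighbors x y).ncard) (r : V) :
    ∃ T : Fin k → SimpleGraph V, (∀ i, T i ≤ G ∧ (T i).IsTree) ∧
      ∀ i j, i ≠ j → Independent r (T i) (T j) := by
  classical
  -- at least `k` neighbours of `r`
  have hdeg : k ≤ (univ.filter (fun v => G.Adj r v)).card := by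
    by_cases hex : ∃ y, r ≠ y ∧ ¬ G.Adj r y
    · obtain ⟨y, hy1, hy2⟩ := hex
      refine (h r y hy1 hy2).trans ?_
      rw [Set.ncard_eq_toFinset_card']
      apply card_le_card
      intro z hz
      rw [Set.mem_toFinset, SimpleGraph.mem_commonNeighbors] at hz
      exact mem_filter.2 ⟨mem_univ _, hz.1⟩
    · push Not at hex
      have h1 : univ.erase r ⊆ univ.filter (fun v => G.Adj r v) := by
        intro z hz
        exact mem_filter.2 ⟨mem_univ _, hex z (Ne.symm (mem_erase.1 hz).1)⟩
      have h2 := card_le_card h1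
      rw [card_erase_of_mem (mem_univ _), card_univ] at h2
      omega
  obtain ⟨ρ, hρ⟩ : ∃ ρ : Fin k → V, Function.Injective ρ ∧ ∀ i, G.Adj r (ρ i) := by
    obtain ⟨P, hP1, hP2⟩ := Finset.exists_subset_card_eq hdeg
    refine ⟨fun i => (P.equivFin.symm (Fin.cast hP2.symm i)).1, ?_, ?_⟩
    · intro i j hij
      have := P.equivFin.symm.injective (Subtype.ext hij)
      exact Fin.cast_injective _ this
    · intro i
      have := hP1 (P.equivFin.symm (Fin.cast hP2.symm i)).2
      exact (mem_filter.1 this).2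
  obtain ⟨hinj, hadj⟩ := hρ
  set I : V → Finset (Fin k) := fun x => univ.filter (fun i => x ≠ ρ i ∧ ¬ G.Adj x (ρ i)) with hI
  set O : V → Fin k → Finset V := fun x i => univ.filter (fun y => G.Adj x y ∧
    ((y = r ∧ ∀ j, x ≠ ρ j) ∨ (y ≠ r ∧ (∀ j, y ≠ ρ j) ∧ G.Adj y (ρ i)))) with hO
  have hcard : ∀ x, x ≠ r → ∀ i ∈ I x, (I x).card ≤ (O x i).card := by
    intro x hxr i hi
    have hi' := (mem_filter.1 hi).2
    have hC := h x (ρ i) hi'.1 hi'.2
    rw [Set.ncard_eq_toFinset_card'] at hC
    set C : Finset V := (G.commonNeighbors x (ρ i)).toFinset with hCdef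
    have mC : ∀ y, y ∈ C ↔ G.Adj x y ∧ G.Adj (ρ i) y := by
      intro y
      rw [hCdef, Set.mem_toFinset, SimpleGraph.mem_commonNeighbors]
    set A : Finset (Fin k) := univ.filter (fun j => G.Adj x (ρ j)) with hA
    have hAI : Disjoint A (I x) := by
      rw [Finset.disjoint_left]
      intro j hj hj'
      exact (mem_filter.1 hj').2.2 (mem_filter.1 hj).2
    have hAIc : A.card + (I x).card = (A ∪ I x).card := (card_union_of_disjoint hAI).symm
    have hk : ∀ s : Finset (Fin k), s.card ≤ k := by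
      intro s
      have := card_le_univ s
      rwa [Fintype.card_fin] at this
    have h1 : (C \ A.image ρ).card ≥ k - A.card := by
      have h2 := le_card_sdiff (A.image ρ) C
      have h3 : (A.image ρ).card ≤ A.card := card_image_le
      omega
    have hnP : ∀ y ∈ C \ A.image ρ, ∀ j, y ≠ ρ j := by
      intro y hy j hyj
      rw [mem_sdiff] at hy
      apply hy.2
      refine mem_image.2 ⟨j, mem_filter.2 ⟨mem_univ _, ?_⟩, hyj.symm⟩
      rw [← hyj]
      exact ((mC y).1 hy.1).1
    by_cases hxP : ∀ j, x ≠ ρ j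
    · have h4 : C \ A.image ρ ⊆ O x i := by
        intro y hy
        have hy1 := (mC y).1 (mem_sdiff.1 hy).1
        refine mem_filter.2 ⟨mem_univ _, hy1.1, ?_⟩
        by_cases hyr : y = r
        · exact Or.inl ⟨hyr, hxP⟩
        · exact Or.inr ⟨hyr, hnP y hy, hy1.2.symm⟩
      have h5 := card_le_card h4
      have := hk (A ∪ I x)
      omega
    · push Not at hxP
      obtain ⟨l, hl⟩ := hxP
      have h4 : (C \ A.image ρ).erase r ⊆ O x i := by
        intro y hy
        obtain ⟨hyr, hy⟩ := mem_erase.1 hy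
        have hy1 := (mC y).1 (mem_sdiff.1 hy).1
        refine mem_filter.2 ⟨mem_univ _, hy1.1, ?_⟩
        exact Or.inr ⟨hyr, hnP y hy, hy1.2.symm⟩
      have h5 := card_le_card h4
      have h6 := pred_card_le_card_erase (s := C \ A.image ρ) (a := r)
      have h7 : l ∉ A ∪ I x := by
        intro hl'
        rcases mem_union.1 hl' with h8 | h8
        · have := (mem_filter.1 h8).2
          rw [← hl] at this
          exact G.loopless.irrefl _ this
        · exact (mem_filter.1 h8).2.1 hl
      have h8 : (A ∪ I x).card < k := by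
        have h9 : (insert l (A ∪ I x)).card ≤ k := hk _
        rw [card_insert_of_notMem h7] at h9
        omega
      omega
  have hex : ∀ x, ∃ w : Fin k → V, x ≠ r → (∀ i ∈ I x, w i ∈ O x i) ∧
      ∀ i ∈ I x, ∀ j ∈ I x, i ≠ j → w i ≠ w j := by
    intro x
    by_cases hx : x = r
    · exact ⟨fun _ => r, fun h => absurd hx h⟩
    · obtain ⟨w, hw⟩ := choose_inj r (I x) (O x) (hcard x hx)
      exact ⟨w, fun _ => hw⟩
  choose w hw using hex
  have hmemI : ∀ x i, x ∉ ({ρ i} : Set V) → (∀ s ∈ ({ρ i} : Set V), ¬ G.Adj x s) → i ∈ I x := by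
    intro x i h1 h2
    exact mem_filter.2 ⟨mem_univ _, h1, h2 (ρ i) rfl⟩
  refine assemble G r k (fun i => {ρ i}) ?_ ?_ ?_ w ?_ ?_
  · intro i h1
    have h2 : r = ρ i := h1
    exact G.loopless.irrefl _ (h2 ▸ hadj i)
  · intro i j hij
    rw [Set.disjoint_singleton]
    exact fun h1 => hij (hinj h1)
  · intro i x hx
    have h1 : x = ρ i := hx
    rw [h1]
    exact RI.single (hadj i) (Set.mem_insert _ _) (Set.mem_insert_of_mem _ rfl)
  · intro x hx i h1 h2
    have h3 := (mem_filter.1 ((hw x hx).1 i (hmemI x i h1 h2))).2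
    refine ⟨h3.1, ?_⟩
    rcases h3.2 with h4 | h4
    · exact Or.inl ⟨h4.1, fun j => h4.2 j⟩
    · exact Or.inr ⟨h4.1, fun j => h4.2.1 j, ρ i, rfl, h4.2.2⟩
  · intro x hx i j hij h1 h2 h3 h4
    exact (hw x hx).2 i (hmemI x i h1 h2) j (hmemI x j h3 h4) hij

end Pool.Agent.Lib.MP_f76be0_co
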