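import Pool.Agent.Lib.MP_f76be0_co.Common

/-!
Short links in graphs of large minimum degree, hub sets, and the greedy choice of disjoint cores.
-/

namespace Pool.Agent.Lib.MP_f76be0_co

open Finset Pool.Agent.Lib.MP_4332cb_co

/-- a short connected set between two vertices outside `Q` -/
lemma short_link {V : Type*} [Fintype V] [DecidableEq V] (G : SimpleGraph V) [DecidableRel G.Adj]
    (Q : Finset V) (d : ℕ)
    (hd : ∀ v, v ∉ Q → d ≤ (univ.filter (fun u => G.Adj v u ∧ u ∉ Q)).card) {x y : V}
    (hx : x ∉ Q) (hreach : RI G {v | v ∉ Q} x y) :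
    ∃ C : Finset V, x ∈ C ∧ y ∈ C ∧ Disjoint C Q ∧ (∀ z ∈ C, RI G (C : Set V) x z) ∧
      C.card * d ≤ 3 * Fintype.card V := by
  classical
  let H : SimpleGraph V :=
    { Adj := fun a b => G.Adj a b ∧ a ∉ Q ∧ b ∉ Q
      symm := ⟨fun a b h => ⟨h.1.symm, h.2.2, h.2.1⟩⟩
      loopless := ⟨fun a h => h.1.ne rfl⟩ }
  have hHy : H.Reachable x y := reachable_of_RI hreach (H := H) (fun a ha b hb hab => ⟨hab, ha, hb⟩)
  -- parents
  have key : ∀ z, ∃ z', H.Reachable x z → z ≠ x → H.Adj z z' ∧ H.Reachable x z' ∧
      H.dist x z' + 1 = H.dist x z := by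
    intro z
    by_cases hz : H.Reachable x z ∧ z ≠ x
    · obtain ⟨p, hp⟩ := (hz.1.symm).exists_walk_length_eq_dist
      cases p with
      | nil => exact absurd rfl hz.2
      | @cons _ z' _ h q =>
        refine ⟨z', fun _ _ => ⟨h, q.reverse.reachable, ?_⟩⟩
        rw [SimpleGraph.Walk.length_cons, SimpleGraph.dist_comm] at hp
        have h1 : H.dist x z' ≤ q.length := by
          rw [SimpleGraph.dist_comm]; exact SimpleGraph.dist_le q
        have h2 : H.dist x z ≤ H.dist x z' + 1 := by
          obtain ⟨p', hp'⟩ := (q.reverse.reachable).exists_walk_length_eq_dist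
          have := SimpleGraph.dist_le (p'.concat h.symm)
          rw [SimpleGraph.Walk.length_concat, hp'] at this
          exact this
        omega
    · exact ⟨z, fun h1 h2 => absurd ⟨h1, h2⟩ hz⟩
  choose g hg using key
  set l := H.dist x y with hl
  -- the geodesic
  have hit : ∀ m ≤ l, H.Reachable x (g^[m] y) ∧ H.dist x (g^[m] y) + m = l := by
    intro m
    induction m with
    | zero => intro _; exact ⟨hHy, rfl⟩
    | succ m ih =>
      intro hm
      obtain ⟨h1, h2⟩ := ih (by omega)
      have hne : g^[m] y ≠ x := by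
        intro h
        rw [h, SimpleGraph.dist_self] at h2
        omega
      obtain ⟨h3, h4, h5⟩ := hg _ h1 hne
      rw [Function.iterate_succ_apply']
      exact ⟨h4, by omega⟩
  have hadj : ∀ m < l, H.Adj (g^[m] y) (g^[m + 1] y) := by
    intro m hm
    obtain ⟨h1, h2⟩ := hit m hm.le
    have hne : g^[m] y ≠ x := by
      intro h
      rw [h, SimpleGraph.dist_self] at h2
      omega
    rw [Function.iterate_succ_apply']
    exact (hg _ h1 hne).1
  have hend : g^[l] y = x := by
    obtain ⟨h1, h2⟩ := hit l le_rfl
    have : H.dist x (g^[l] y) = 0 := by omega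
    rcases SimpleGraph.dist_eq_zero_iff_eq_or_not_reachable.1 this with h | h
    · exact h.symm
    · exact absurd h1 h
  set C : Finset V := (range (l + 1)).image (fun m => g^[m] y) with hC
  have mC : ∀ z, z ∈ C ↔ ∃ m ≤ l, g^[m] y = z := by
    intro z
    rw [hC, mem_image]
    constructor
    · rintro ⟨m, hm, h⟩; exact ⟨m, by rw [mem_range] at hm; omega, h⟩
    · rintro ⟨m, hm, h⟩; exact ⟨m, mem_range.2 (by omega), h⟩
  have hnQ : ∀ z ∈ C, z ∉ Q := by
    intro z hz
    obtain ⟨m, hm, rfl⟩ := (mC z).1 hz
    rcases Nat.lt_or_ge m l with h | h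
    · exact (hadj m h).2.1
    · have : m = l := le_antisymm hm h
      rw [this, hend]; exact hx
  refine ⟨C, (mC x).2 ⟨l, le_rfl, hend⟩, (mC y).2 ⟨0, Nat.zero_le _, rfl⟩, ?_, ?_, ?_⟩
  · rw [Finset.disjoint_left]
    exact hnQ
  · intro z hz
    obtain ⟨m, hm, rfl⟩ := (mC z).1 hz
    -- go from `x = g^[l] y` down to `g^[m] y`
    have : ∀ j, j ≤ l → RI G (C : Set V) x (g^[l - j] y) := by
      intro j
      induction j with
      | zero => intro _; rw [Nat.sub_zero, hend]; exact RI.refl _
      | succ j ih =>
        intro hj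
        have h1 := ih (by omega)
        have h2 := hadj (l - (j + 1)) (by omega)
        rw [show l - (j + 1) + 1 = l - j by omega] at h2
        exact h1.trans (RI.single h2.1.symm ((mC _).2 ⟨l - j, by omega, rfl⟩)
          ((mC _).2 ⟨l - (j + 1), by omega, rfl⟩))
    have h3 := this (l - m) (by omega)
    rwa [show l - (l - m) = m by omega] at h3
  · -- double counting
    have h1 : ∀ c ∈ C, d ≤ (bipartiteAbove (fun a b => H.Adj a b) univ c).card := by
      intro c hc
      refine (hd c (hnQ c hc)).trans (card_le_card ?_)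
      intro u hu
      have hu' := (mem_filter.1 hu).2
      rw [mem_bipartiteAbove]
      exact ⟨mem_univ _, hu'.1, hnQ c hc, hu'.2⟩
    have h2 : ∀ u ∈ (univ : Finset V),
        (bipartiteBelow (fun a b => H.Adj a b) C u).card ≤ 3 := by
      intro u _
      by_contra hcon
      push Not at hcon
      have hinj : Set.InjOn (fun z => H.dist x z) (C : Set V) := by
        intro a ha b hb hab
        obtain ⟨m1, hm1, rfl⟩ := (mC a).1 ha
        obtain ⟨m2, hm2, rfl⟩ := (mC b).1 hb
        have e1 := (hit m1 hm1).2
        have e2 := (hit m2 hm2).2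
        have : m1 = m2 := by
          simp only at hab
          omega
        rw [this]
      set N := bipartiteBelow (fun a b => H.Adj a b) C u with hN
      have hNC : N ⊆ C := filter_subset _ _
      have hNne : N.Nonempty := card_pos.1 (by omega)
      obtain ⟨a, ha, hamin⟩ := exists_min_image N (fun z => H.dist x z) hNne
      have himg : N.image (fun z => H.dist x z) ⊆ Icc (H.dist x a) (H.dist x a + 2) := by
        intro t ht
        obtain ⟨b, hb, rfl⟩ := mem_image.1 ht
        rw [mem_Icc]
        refine ⟨hamin b hb, ?_⟩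
        have hab1 : H.Adj a u := ((mem_bipartiteBelow _).1 ha).2
        have hbb1 : H.Adj b u := ((mem_bipartiteBelow _).1 hb).2
        obtain ⟨m1, hm1, hm1'⟩ := (mC a).1 (hNC ha)
        have hra : H.Reachable x a := hm1' ▸ (hit m1 hm1).1
        obtain ⟨p', hp'⟩ := hra.exists_walk_length_eq_dist
        have := SimpleGraph.dist_le ((p'.concat hab1).concat hbb1.symm)
        rw [SimpleGraph.Walk.length_concat, SimpleGraph.Walk.length_concat, hp'] at this
        exact this
      have h3 := card_le_card himg
      rw [card_image_of_injOn (hinj.mono (by exact_mod_cast hNC)), Nat.card_Icc] at h3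
      omega
    have h3 := card_mul_le_card_mul (fun a b => H.Adj a b) h1 h2
    rw [card_univ] at h3
    omega

/-- greedy choice of disjoint sets -/
lemma greedy {V : Type*} [Fintype V] [DecidableEq V] (k M : ℕ) (Q0 : Finset V)
    (Good : ℕ → Finset V → Prop)
    (h : ∀ i Q, i < k → Q0 ⊆ Q → Q.card ≤ Q0.card + M * k →
      ∃ S : Finset V, Disjoint S Q ∧ S.card ≤ M ∧ Good i S) :
    ∃ S : ℕ → Finset V, (∀ i < k, Disjoint (S i) Q0 ∧ (S i).card ≤ M ∧ Good i (S i)) ∧
      ∀ i < k, ∀ j < k, i ≠ j → Disjoint (S i) (S j) := by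
  have main : ∀ m ≤ k, ∃ S : ℕ → Finset V,
      (∀ i < m, Disjoint (S i) Q0 ∧ (S i).card ≤ M ∧ Good i (S i)) ∧
      ∀ i < m, ∀ j < m, i ≠ j → Disjoint (S i) (S j) := by
    intro m
    induction m with
    | zero => intro _; exact ⟨fun _ => ∅, fun i hi => by omega, fun i hi => by omega⟩
    | succ m ih =>
      intro hm
      obtain ⟨S, h1, h2⟩ := ih (by omega)
      set Q := Q0 ∪ (range m).biUnion S with hQ
      have hQc : Q.card ≤ Q0.card + M * k := by
        have h3 : ((range m).biUnion S).card ≤ m * M := by
          have := card_biUnion_le_card_mul (range m) S M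
            (fun i hi => (h1 i (mem_range.1 hi)).2.1)
          rwa [card_range] at this
        have h4 : Q.card ≤ Q0.card + ((range m).biUnion S).card := card_union_le _ _
        have h5 : m * M ≤ M * k := by
          rw [mul_comm]; exact Nat.mul_le_mul_left _ (by omega)
        omega
      obtain ⟨S', h3, h4, h5⟩ := h m Q (by omega) subset_union_left hQc
      refine ⟨fun i => if i = m then S' else S i, ?_, ?_⟩
      · intro i hi
        by_cases him : i = m
        · simp only [him, if_pos]
          exact ⟨h3.mono_right subset_union_left, h4, h5⟩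
        · simp only [him, if_neg, not_false_iff]
          exact h1 i (by omega)
      · have hS' : ∀ i < m, Disjoint S' (S i) := by
          intro i hi
          refine h3.mono_right ?_
          intro z hz
          exact mem_union_right _ (mem_biUnion.2 ⟨i, mem_range.2 hi, hz⟩)
        intro i hi j hj hij
        by_cases him : i = m
        · by_cases hjm : j = m
          · omega
          · simp only [him, hjm, if_pos, if_neg, not_false_iff]
            exact hS' j (by omega)
        · by_cases hjm : j = m
          · simp only [him, hjm, if_pos, if_neg, not_false_iff]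
            exact (hS' i (by omega)).symm
          · simp only [him, hjm, if_neg, not_false_iff]
            exact h2 i (by omega) j (by omega) hij
  exact main k le_rfl

/-- the vertices with a neighbour in `D` -/
def covered {V : Type*} [Fintype V] [DecidableEq V] (G : SimpleGraph V) [DecidableRel G.Adj]
    (D : Finset V) : Finset V := univ.filter (fun u => ∃ s ∈ D, G.Adj u s)

/-- one step of the covering: some vertex of `W` covers a proportion `e / n` of `X` -/
lemma cover_step {V : Type*} [Fintype V] [DecidableEq V] (G : SimpleGraph V) [DecidableRel G.Adj]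
    (W X : Finset V) (e : ℕ) (he : ∀ u ∈ X, e ≤ (W.filter (fun w => G.Adj u w)).card)
    (hX : X.Nonempty) (he0 : 0 < e) :
    ∃ w ∈ W, e * X.card ≤ (X.filter (fun u => G.Adj u w)).card * W.card := by
  classical
  have hW : W.Nonempty := by
    obtain ⟨u, hu⟩ := hX
    have := he u hu
    obtain ⟨w, hw⟩ := card_pos.1 (lt_of_lt_of_le he0 this)
    exact ⟨w, (mem_filter.1 hw).1⟩
  obtain ⟨w, hw, hmax⟩ := exists_max_image W (fun w => (X.filter (fun u => G.Adj u w)).card) hW
  refine ⟨w, hw, ?_⟩
  have h1 : ∀ u ∈ X, e ≤ (bipartiteAbove (fun a b => G.Adj a b) W u).card := by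
    intro u hu
    refine (he u hu).trans (card_le_card ?_)
    intro z hz
    rw [mem_bipartiteAbove]
    exact mem_filter.1 hz
  have h2 : ∀ b ∈ W, (bipartiteBelow (fun a b => G.Adj a b) X b).card ≤
      (X.filter (fun u => G.Adj u w)).card := by
    intro b hb
    refine le_trans (card_le_card ?_) (hmax b hb)
    intro z hz
    rw [mem_bipartiteBelow] at hz
    exact mem_filter.2 hz
  have h3 := card_mul_le_card_mul (fun a b => G.Adj a b) h1 h2
  rw [mul_comm e]
  exact h3.trans (le_of_eq (mul_comm _ _))

/-- `m` vertices of `W` cover all but a proportion `(1 - e/n)^m` of the vertices -/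
lemma cover {V : Type*} [Fintype V] [DecidableEq V] (G : SimpleGraph V) [DecidableRel G.Adj]
    (W : Finset V) (e : ℕ) (he : ∀ u, e ≤ (W.filter (fun w => G.Adj u w)).card) (he0 : 0 < e)
    (m : ℕ) :
    ∃ D : Finset V, D ⊆ W ∧ D.card ≤ m ∧
      (univ \ covered G D).card * (Fintype.card V) ^ m ≤
        (Fintype.card V - e) ^ m * Fintype.card V := by
  classical
  induction m with
  | zero =>
    refine ⟨∅, empty_subset _, le_rfl, ?_⟩
    rw [pow_zero, pow_zero, mul_one, one_mul]
    exact card_le_univ _
  | succ m ih =>
    obtain ⟨D, h1, h2, h3⟩ := ih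
    set X := univ \ covered G D with hX
    set n := Fintype.card V with hn
    rcases X.eq_empty_or_nonempty with hXe | hXne
    · refine ⟨D, h1, by omega, ?_⟩
      rw [← hX, hXe]; simp
    · obtain ⟨w, hw, hw'⟩ := cover_step G W X e (fun u _ => he u) hXne he0
      refine ⟨insert w D, insert_subset hw h1, (card_insert_le _ _).trans (by omega), ?_⟩
      have hWn : W.card ≤ n := card_le_univ _
      have hXn : X.card ≤ n := card_le_univ _
      have h4 : (univ \ covered G (insert w D)).card + (X.filter (fun u => G.Adj u w)).card ≤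
          X.card := by
        rw [← card_union_of_disjoint]
        · apply card_le_card
          intro u hu
          rcases mem_union.1 hu with h | h
          · rw [hX, mem_sdiff]
            refine ⟨mem_univ _, fun hc => (mem_sdiff.1 h).2 ?_⟩
            obtain ⟨s, hs, hs'⟩ := (mem_filter.1 hc).2
            exact mem_filter.2 ⟨mem_univ _, s, mem_insert_of_mem hs, hs'⟩
          · exact (mem_filter.1 h).1
        · rw [Finset.disjoint_left]
          intro u hu hu'
          apply (mem_sdiff.1 hu).2
          exact mem_filter.2 ⟨mem_univ _, w, mem_insert_self _ _, (mem_filter.1 hu').2⟩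
      have h5 : e * X.card ≤ (X.filter (fun u => G.Adj u w)).card * n :=
        hw'.trans (Nat.mul_le_mul_left _ hWn)
      have hen : e ≤ n := by
        obtain ⟨u, _⟩ := hXne
        exact (he u).trans ((card_le_card (filter_subset _ _)).trans hWn)
      -- `|X'| * n ≤ |X| * (n - e)`
      have h6 : (univ \ covered G (insert w D)).card * n ≤ X.card * (n - e) := by
        obtain ⟨f, hf⟩ := Nat.exists_eq_add_of_le hen
        have : n - e = f := by omega
        rw [this]
        have h7 : ((univ \ covered G (insert w D)).card + (X.filter (fun u => G.Adj u w)).card) * n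
            ≤ X.card * n := Nat.mul_le_mul_right _ h4
        have h8 : X.card * n = X.card * e + X.card * f := by rw [hf]; ring
        have h9 : X.card * e = e * X.card := mul_comm _ _
        rw [add_mul] at h7
        omega
      calc (univ \ covered G (insert w D)).card * n ^ (m + 1)
          = ((univ \ covered G (insert w D)).card * n) * n ^ m := by ring
        _ ≤ (X.card * (n - e)) * n ^ m := Nat.mul_le_mul_right _ h6
        _ = (X.card * n ^ m) * (n - e) := by ring
        _ ≤ ((n - e) ^ m * n) * (n - e) := Nat.mul_le_mul_right _ h3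
        _ = (n - e) ^ (m + 1) * n := by ring

/-- independent spanning trees from disjoint cores whose neighbourhoods meet every
neighbourhood in many vertices -/
theorem of_cores {V : Type*} [Fintype V] [DecidableEq V] (G : SimpleGraph V) [DecidableRel G.Adj]
    (r : V) (k L : ℕ) (S : Fin k → Finset V)
    (hr : ∀ i, r ∉ S i) (hdis : ∀ i j, i ≠ j → Disjoint (S i) (S j))
    (hc : ∀ i, ∀ x ∈ S i, RI G (insert r (S i : Set V)) r x)
    (hL : k + 1 + ∑ i, (S i).card ≤ L)
    (hdom : ∀ x i, L ≤ ((covered G (S i)).filter (fun u => G.Adj x u)).card) :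
    ∃ T : Fin k → SimpleGraph V, (∀ i, T i ≤ G ∧ (T i).IsTree) ∧
      ∀ i j, i ≠ j → Independent r (T i) (T j) := by
  classical
  set U : Finset V := insert r (univ.biUnion S) with hU
  have hUc : U.card ≤ 1 + ∑ i, (S i).card := by
    have h1 : U.card ≤ (univ.biUnion S).card + 1 := card_insert_le _ _
    have h2 : (univ.biUnion S).card ≤ ∑ i, (S i).card := card_biUnion_le
    omega
  have hex : ∀ x, ∃ w : Fin k → V, (∀ i, w i ∈ ((covered G (S i)).filter
      (fun u => G.Adj x u)) \ U) ∧ ∀ i j, i ≠ j → w i ≠ w j := by
    intro x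
    obtain ⟨w, h1, h2⟩ := choose_inj r (univ : Finset (Fin k))
      (fun i => ((covered G (S i)).filter (fun u => G.Adj x u)) \ U) (by
        intro i _
        have h3 := le_card_sdiff U ((covered G (S i)).filter (fun u => G.Adj x u))
        have h4 := hdom x i
        rw [card_univ, Fintype.card_fin]
        omega)
    exact ⟨w, fun i => h1 i (mem_univ _), fun i j => h2 i (mem_univ _) j (mem_univ _)⟩
  choose w hw1 hw2 using hex
  refine assemble G r k (fun i => (S i : Set V)) (fun i => by simpa using hr i) ?_ hc w ?_ ?_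
  · intro i j hij
    exact_mod_cast hdis i j hij
  · intro x _ i _ _
    have h1 := mem_sdiff.1 (hw1 x i)
    have h2 := mem_filter.1 h1.1
    refine ⟨h2.2, Or.inr ⟨?_, ?_, ?_⟩⟩
    · intro h
      exact h1.2 (h ▸ mem_insert_self _ _)
    · intro j hj
      exact h1.2 (mem_insert_of_mem (mem_biUnion.2 ⟨j, mem_univ _, by exact_mod_cast hj⟩))
    · obtain ⟨s, hs, hs'⟩ := (mem_filter.1 h2.1).2
      exact ⟨s, by exact_mod_cast hs, hs'⟩
  · intro x _ i j hij _ _ _ _
    exact hw2 x i j hij

end Pool.Agent.Lib.MP_f76be0_co
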