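import Pool.Agent.Lib.MP_f76be0_co.Tree

/-!
Spanning trees from parent functions, and independent spanning trees from disjoint cores that
reach every vertex in at most two further steps.
-/

namespace Pool.Agent.Lib.MP_f76be0_co

open Finset Pool.Agent.Lib.MP_4332cb_co

/-- the graph of the edges `x (f x)`, `x ≠ r` -/
def parG {V : Type*} (G : SimpleGraph V) (r : V) (f : V → V) : SimpleGraph V where
  Adj a b := G.Adj a b ∧ ((a ≠ r ∧ b = f a) ∨ (b ≠ r ∧ a = f b))
  symm := ⟨by
    rintro a b ⟨h1, h2 | h2⟩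
    · exact ⟨h1.symm, Or.inr h2⟩
    · exact ⟨h1.symm, Or.inl h2⟩⟩
  loopless := ⟨by
    rintro a ⟨h, _⟩
    exact h.ne rfl⟩

lemma chain_of_path {V : Type*} {G T : SimpleGraph V} {r : V} {f : V → V}
    (hT : T ≤ parG G r f) {y z : V} (p : T.Walk y z) (hz : z = r) (hp : p.IsPath) :
    (y ≠ r → f y ∈ p.support) ∧ ∀ v ∈ p.support, ∃ m : ℕ, v = f^[m] y := by
  induction p with
  | nil =>
    refine ⟨fun h => absurd hz h, ?_⟩
    intro v hv
    rw [SimpleGraph.Walk.support_nil, List.mem_singleton] at hv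
    exact ⟨0, hv⟩
  | @cons x y z h q ih =>
    rw [SimpleGraph.Walk.cons_isPath_iff] at hp
    obtain ⟨ih1, ih2⟩ := ih hz hp.1
    have hxr : x ≠ r := by
      rintro rfl
      exact hp.2 (hz ▸ q.end_mem_support)
    rcases (hT h).2 with ⟨_, h1⟩ | ⟨h1, h2⟩
    · constructor
      · intro _
        rw [SimpleGraph.Walk.support_cons, ← h1]
        exact List.mem_cons_of_mem _ q.start_mem_support
      · intro v hv
        rw [SimpleGraph.Walk.support_cons, List.mem_cons] at hv
        rcases hv with hv | hv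
        · exact ⟨0, hv⟩
        · obtain ⟨m, hm⟩ := ih2 v hv
          refine ⟨m + 1, ?_⟩
          rw [Function.iterate_succ_apply, ← h1]
          exact hm
    · exact absurd (h2 ▸ ih1 h1) hp.2

theorem par_tree {V : Type*} [Fintype V] (G : SimpleGraph V) (r : V) (f : V → V) (ρ : V → ℕ)
    (hf : ∀ x, x ≠ r → G.Adj x (f x)) (hρ : ∀ x, x ≠ r → ρ (f x) < ρ x) :
    ∃ T : SimpleGraph V, T ≤ G ∧ T.IsTree ∧ ∀ x, x ≠ r → ∀ p : T.Walk r x, p.IsPath →
      (∀ v ∈ p.support, ∃ m : ℕ, v = f^[m] x) ∧ (s(r, x) ∈ p.edges → f x = r) := by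
  classical
  have hreach : ∀ n : ℕ, ∀ x, ρ x < n → (parG G r f).Reachable r x := by
    intro n
    induction n with
    | zero => intro x hx; omega
    | succ n ih =>
      intro x hx
      by_cases hxr : x = r
      · rw [hxr]
      · have h1 := hρ x hxr
        refine (ih (f x) (by omega)).trans ?_
        exact (show (parG G r f).Adj (f x) x from
          ⟨(hf x hxr).symm, Or.inr ⟨hxr, rfl⟩⟩).reachable
  have hconn : (parG G r f).Connected := by
    have : Nonempty V := ⟨r⟩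
    exact ⟨fun x y => (hreach _ x (Nat.lt_succ_self _)).symm.trans (hreach _ y (Nat.lt_succ_self _))⟩
  obtain ⟨T, hT, hTree⟩ := hconn.exists_isTree_le
  refine ⟨T, hT.trans (fun a b h => h.1), hTree, ?_⟩
  intro x hx p hp
  constructor
  · intro v hv
    have := (chain_of_path hT p.reverse rfl hp.reverse).2 v
      (by rw [SimpleGraph.Walk.support_reverse]; exact List.mem_reverse.2 hv)
    exact this
  · intro he
    have hadj : T.Adj r x := SimpleGraph.Walk.adj_of_mem_edges p he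
    rcases (hT hadj).2 with h | h
    · exact absurd rfl h.1
    · exact h.2.symm

/-- a rank and a parent function inside a connected core -/
lemma core_parent {V : Type*} (G : SimpleGraph V) (r : V) (S : Set V)
    (hc : ∀ x ∈ S, RI G (insert r S) r x) :
    ∃ (g : V → V) (ρ : V → ℕ), ∀ x ∈ S, x ≠ r → G.Adj x (g x) ∧ g x ∈ insert r S ∧
      ρ (g x) < ρ x := by
  classical
  let H : SimpleGraph V :=
    { Adj := fun a b => G.Adj a b ∧ a ∈ insert r S ∧ b ∈ insert r S
      symm := ⟨fun a b h => ⟨h.1.symm, h.2.2, h.2.1⟩⟩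
      loopless := ⟨fun a h => h.1.ne rfl⟩ }
  have hreach : ∀ x ∈ S, H.Reachable x r := by
    intro x hx
    refine (reachable_of_RI (hc x hx) (H := H) ?_).symm
    intro a ha b hb hab
    exact ⟨hab, ha, hb⟩
  have key : ∀ x, ∃ y, x ∈ S → x ≠ r → G.Adj x y ∧ y ∈ insert r S ∧ H.dist y r < H.dist x r := by
    intro x
    by_cases hx : x ∈ S ∧ x ≠ r
    · obtain ⟨p, hp⟩ := (hreach x hx.1).exists_walk_length_eq_dist
      cases p with
      | nil => exact absurd rfl hx.2
      | @cons _ y _ h q =>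
        refine ⟨y, fun _ _ => ⟨h.1, h.2.2, ?_⟩⟩
        rw [SimpleGraph.Walk.length_cons] at hp
        have := SimpleGraph.dist_le q
        omega
    · exact ⟨x, fun h1 h2 => absurd ⟨h1, h2⟩ hx⟩
  choose g hg using key
  exact ⟨g, fun x => H.dist x r, fun x hx hxr => hg x hx hxr⟩

/-- one tree: core `S`, vertices adjacent to the core, and vertices reached through `w` -/
theorem one_tree {V : Type*} [Fintype V] (G : SimpleGraph V) (r : V) (S : Set V) (hr : r ∉ S)
    (hc : ∀ x ∈ S, RI G (insert r S) r x) (w : V → V)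
    (hw : ∀ x, x ≠ r → x ∉ S → (∀ s ∈ S, ¬ G.Adj x s) →
      G.Adj x (w x) ∧ (w x = r ∨ (w x ≠ r ∧ w x ∉ S ∧ ∃ s ∈ S, G.Adj (w x) s))) :
    ∃ T : SimpleGraph V, T ≤ G ∧ T.IsTree ∧ ∀ x, x ≠ r → ∀ p : T.Walk r x, p.IsPath →
      (∀ v ∈ p.support, v = r ∨ v = x ∨ v ∈ S ∨
        (x ∉ S ∧ (∀ s ∈ S, ¬ G.Adj x s) ∧ v = w x)) ∧
      (s(r, x) ∈ p.edges → x ∈ S ∨ (x ∉ S ∧ (∀ s ∈ S, ¬ G.Adj x s) ∧ w x = r)) := by
  classical
  obtain ⟨g, ρ, hg⟩ := core_parent G r S hc
  obtain ⟨M, hM⟩ : ∃ M, ∀ x, ρ x ≤ M := by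
    refine ⟨∑ x, ρ x, fun x => ?_⟩
    exact Finset.single_le_sum (f := ρ) (fun y _ => Nat.zero_le _) (mem_univ x)
  -- level one
  have hone : ∀ x, ∃ s, (∃ s ∈ S, G.Adj x s) → s ∈ S ∧ G.Adj x s := by
    intro x
    by_cases h : ∃ s ∈ S, G.Adj x s
    · obtain ⟨s, hs⟩ := h
      exact ⟨s, fun _ => hs⟩
    · exact ⟨x, fun h' => absurd h' h⟩
  choose u hu using hone
  set f : V → V := fun x => if x = r then r else if x ∈ S then g x else
    if ∃ s ∈ S, G.Adj x s then u x else w x with hf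
  set σ : V → ℕ := fun x => if x = r then 0 else if x ∈ S then ρ x + 1 else
    if ∃ s ∈ S, G.Adj x s then M + 2 else M + 3 with hσ
  have f1 : f r = r := by rw [hf]; simp
  have f2 : ∀ x, x ≠ r → x ∈ S → f x = g x := by
    intro x h1 h2; simp only [hf]; rw [if_neg h1, if_pos h2]
  have f3 : ∀ x, x ≠ r → x ∉ S → (∃ s ∈ S, G.Adj x s) → f x = u x := by
    intro x h1 h2 h3; simp only [hf]; rw [if_neg h1, if_neg h2, if_pos h3]
  have f4 : ∀ x, x ≠ r → x ∉ S → (∀ s ∈ S, ¬ G.Adj x s) → f x = w x := by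
    intro x h1 h2 h3
    have h4 : ¬ ∃ s ∈ S, G.Adj x s := fun ⟨s, h5, h6⟩ => h3 s h5 h6
    simp only [hf]; rw [if_neg h1, if_neg h2, if_neg h4]
  have s1 : σ r = 0 := by rw [hσ]; simp
  have s2 : ∀ x, x ≠ r → x ∈ S → σ x = ρ x + 1 := by
    intro x h1 h2; simp only [hσ]; rw [if_neg h1, if_pos h2]
  have s3 : ∀ x, x ≠ r → x ∉ S → (∃ s ∈ S, G.Adj x s) → σ x = M + 2 := by
    intro x h1 h2 h3; simp only [hσ]; rw [if_neg h1, if_neg h2, if_pos h3]
  have s4 : ∀ x, x ≠ r → x ∉ S → (∀ s ∈ S, ¬ G.Adj x s) → σ x = M + 3 := by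
    intro x h1 h2 h3
    have h4 : ¬ ∃ s ∈ S, G.Adj x s := fun ⟨s, h5, h6⟩ => h3 s h5 h6
    simp only [hσ]; rw [if_neg h1, if_neg h2, if_neg h4]
  have hneS : ∀ s ∈ S, s ≠ r := fun s hs h => hr (h ▸ hs)
  have hadj : ∀ x, x ≠ r → G.Adj x (f x) := by
    intro x hx
    by_cases hxS : x ∈ S
    · rw [f2 x hx hxS]; exact (hg x hxS hx).1
    · by_cases h : ∃ s ∈ S, G.Adj x s
      · rw [f3 x hx hxS h]; exact (hu x h).2
      · push Not at h
        rw [f4 x hx hxS h]; exact (hw x hx hxS h).1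
  have hrank : ∀ x, x ≠ r → σ (f x) < σ x := by
    intro x hx
    by_cases hxS : x ∈ S
    · rw [f2 x hx hxS, s2 x hx hxS]
      obtain ⟨h1, h2, h3⟩ := hg x hxS hx
      by_cases hgr : g x = r
      · rw [hgr, s1]; omega
      · rw [s2 _ hgr (h2.resolve_left hgr)]; omega
    · by_cases h : ∃ s ∈ S, G.Adj x s
      · rw [f3 x hx hxS h, s3 x hx hxS h]
        have h1 := (hu x h).1
        rw [s2 _ (hneS _ h1) h1]
        have := hM (u x)
        omega
      · push Not at h
        rw [f4 x hx hxS h, s4 x hx hxS h]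
        rcases (hw x hx hxS h).2 with h1 | ⟨h1, h2, h3⟩
        · rw [h1, s1]; omega
        · rw [s3 _ h1 h2 h3]; omega
  obtain ⟨T, hT1, hT2, hT3⟩ := par_tree G r f σ hadj hrank
  refine ⟨T, hT1, hT2, ?_⟩
  -- iterates stay in the core
  have hcore : ∀ m : ℕ, ∀ y ∈ insert r S, f^[m] y ∈ insert r S := by
    intro m
    induction m with
    | zero => intro y hy; exact hy
    | succ m ih =>
      intro y hy
      rw [Function.iterate_succ_apply]
      apply ih
      by_cases hyr : y = r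
      · rw [hyr, f1]; exact Set.mem_insert _ _
      · have hyS := hy.resolve_left hyr
        rw [f2 y hyr hyS]
        exact (hg y hyS hyr).2.1
  have hcore' : ∀ m : ℕ, ∀ y ∈ insert r S, f^[m] y = r ∨ f^[m] y ∈ S := fun m y hy => hcore m y hy
  intro x hx p hp
  obtain ⟨hp1, hp2⟩ := hT3 x hx p hp
  constructor
  · intro v hv
    obtain ⟨m, rfl⟩ := hp1 v hv
    by_cases hxS : x ∈ S
    · rcases hcore' m x (Or.inr hxS) with h | h
      · exact Or.inl h
      · exact Or.inr (Or.inr (Or.inl h))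
    · cases m with
      | zero => exact Or.inr (Or.inl rfl)
      | succ m =>
        rw [Function.iterate_succ_apply]
        by_cases h : ∃ s ∈ S, G.Adj x s
        · rw [f3 x hx hxS h]
          rcases hcore' m (u x) (Or.inr (hu x h).1) with h | h
          · exact Or.inl h
          · exact Or.inr (Or.inr (Or.inl h))
        · push Not at h
          rw [f4 x hx hxS h]
          rcases (hw x hx hxS h).2 with h1 | ⟨h1, h2, h3⟩
          · rw [h1]
            rcases hcore' m r (Or.inl rfl) with h | h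
            · exact Or.inl h
            · exact Or.inr (Or.inr (Or.inl h))
          · cases m with
            | zero => exact Or.inr (Or.inr (Or.inr ⟨hxS, h, rfl⟩))
            | succ m =>
              rw [Function.iterate_succ_apply, f3 _ h1 h2 h3]
              rcases hcore' m (u (w x)) (Or.inr (hu _ h3).1) with h | h
              · exact Or.inl h
              · exact Or.inr (Or.inr (Or.inl h))
  · intro he
    have h1 := hp2 he
    by_cases hxS : x ∈ S
    · exact Or.inl hxS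
    · right
      by_cases h : ∃ s ∈ S, G.Adj x s
      · rw [f3 x hx hxS h] at h1
        exact absurd h1 (hneS _ (hu x h).1)
      · push Not at h
        rw [f4 x hx hxS h] at h1
        exact ⟨hxS, h, h1⟩

/-- disjoint cores that reach every vertex in at most two further steps, with different middle
vertices, give independent spanning trees -/
theorem assemble {V : Type*} [Fintype V] (G : SimpleGraph V) (r : V) (k : ℕ)
    (S : Fin k → Set V) (hr : ∀ i, r ∉ S i) (hdis : ∀ i j, i ≠ j → Disjoint (S i) (S j))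
    (hc : ∀ i, ∀ x ∈ S i, RI G (insert r (S i)) r x) (w : V → Fin k → V)
    (hw : ∀ x, x ≠ r → ∀ i, x ∉ S i → (∀ s ∈ S i, ¬ G.Adj x s) →
      G.Adj x (w x i) ∧ ((w x i = r ∧ ∀ j, x ∉ S j) ∨
        (w x i ≠ r ∧ (∀ j, w x i ∉ S j) ∧ ∃ s ∈ S i, G.Adj (w x i) s)))
    (hinj : ∀ x, x ≠ r → ∀ i j, i ≠ j → x ∉ S i → (∀ s ∈ S i, ¬ G.Adj x s) →
      x ∉ S j → (∀ s ∈ S j, ¬ G.Adj x s) → w x i ≠ w x j) :
    ∃ T : Fin k → SimpleGraph V, (∀ i, T i ≤ G ∧ (T i).IsTree) ∧
      ∀ i j, i ≠ j → Independent r (T i) (T j) := by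
  classical
  have h0 : ∀ i, ∃ T : SimpleGraph V, T ≤ G ∧ T.IsTree ∧
      ∀ x, x ≠ r → ∀ p : T.Walk r x, p.IsPath →
      (∀ v ∈ p.support, v = r ∨ v = x ∨ v ∈ S i ∨
        (x ∉ S i ∧ (∀ s ∈ S i, ¬ G.Adj x s) ∧ v = w x i)) ∧
      (s(r, x) ∈ p.edges → x ∈ S i ∨ (x ∉ S i ∧ (∀ s ∈ S i, ¬ G.Adj x s) ∧ w x i = r)) := by
    intro i
    refine one_tree G r (S i) (hr i) (hc i) (fun x => w x i) ?_
    intro x hx hxS h
    obtain ⟨h1, h2⟩ := hw x hx i hxS h
    refine ⟨h1, ?_⟩
    rcases h2 with h2 | h2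
    · exact Or.inl h2.1
    · exact Or.inr ⟨h2.1, h2.2.1 i, h2.2.2⟩
  choose T hT1 hT2 hT3 using h0
  refine ⟨T, fun i => ⟨hT1 i, hT2 i⟩, ?_⟩
  intro i j hij x hx p q hp hq
  obtain ⟨hp1, hp2⟩ := hT3 i x hx p hp
  obtain ⟨hq1, hq2⟩ := hT3 j x hx q hq
  -- middle vertices are not in cores, unless they are `r`
  have hmid : ∀ a b, x ∉ S a → (∀ s ∈ S a, ¬ G.Adj x s) → w x a ∈ S b → False := by
    intro a b h1 h2 h3
    rcases (hw x hx a h1 h2).2 with h4 | h4
    · exact hr b (h4.1 ▸ h3)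
    · exact h4.2.1 b h3
  have hv : ∀ v, v ∈ p.support → v ∈ q.support → v = r ∨ v = x := by
    intro v h1 h2
    rcases hp1 v h1 with h | h | h | ⟨h, h', h''⟩
    · exact Or.inl h
    · exact Or.inr h
    · rcases hq1 v h2 with g | g | g | ⟨g, g', g''⟩
      · exact Or.inl g
      · exact Or.inr g
      · exact absurd g (Set.disjoint_left.1 (hdis i j hij) h)
      · exact absurd (g'' ▸ h) (fun h => hmid j i g g' h)
    · rcases hq1 v h2 with g | g | g | ⟨g, g', g''⟩
      · exact Or.inl g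
      · exact Or.inr g
      · exact absurd (h'' ▸ g) (fun h0 => hmid i j h h' h0)
      · exact absurd (h''.symm.trans g'') (hinj x hx i j hij h h' g g')
  refine ⟨?_, hv⟩
  intro e he1 he2
  induction e using Sym2.ind with
  | _ a b =>
    have ha := hv a (p.fst_mem_support_of_mem_edges he1) (q.fst_mem_support_of_mem_edges he2)
    have hb := hv b (p.snd_mem_support_of_mem_edges he1) (q.snd_mem_support_of_mem_edges he2)
    have hab : a ≠ b := (SimpleGraph.Walk.adj_of_mem_edges p he1).ne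
    have hrx : s(a, b) = s(r, x) := by
      rcases ha with rfl | rfl <;> rcases hb with rfl | rfl
      · exact absurd rfl hab
      · rfl
      · exact Sym2.eq_swap
      · exact absurd rfl hab
    rw [hrx] at he1 he2
    rcases hp2 he1 with h | ⟨h, h', h''⟩
    · rcases hq2 he2 with g | ⟨g, g', g''⟩
      · exact Set.disjoint_left.1 (hdis i j hij) h g
      · rcases (hw x hx j g g').2 with h4 | h4
        · exact h4.2 i h
        · exact h4.1 g''
    · rcases hq2 he2 with g | ⟨g, g', g''⟩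
      · rcases (hw x hx i h h').2 with h4 | h4
        · exact h4.2 j g
        · exact h4.1 h''
      · exact hinj x hx i j hij h h' g g' (h''.trans g''.symm)

end Pool.Agent.Lib.MP_f76be0_co
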