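import Pool.Agent.Lib.MP_f76be0_co.Blow

/-!
Independent spanning trees of the enlarged graph give independent spanning trees of the graph.
-/

namespace Pool.Agent.Lib.MP_f76be0_co

open Finset Pool.Agent.Lib.MP_4332cb_co BV

/-- vertices on the paths from `s` to `x` -/
def sup {W : Type} (T : SimpleGraph W) (s x : W) : Set W :=
  {v | ∃ p : T.Walk s x, p.IsPath ∧ v ∈ p.support}

lemma path_eq {W : Type} {T : SimpleGraph W} (hT : T.IsTree) {a b : W} {p q : T.Walk a b}
    (hp : p.IsPath) (hq : q.IsPath) : p = q :=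
  congrArg Subtype.val (hT.IsAcyclic.path_unique ⟨p, hp⟩ ⟨q, hq⟩)

lemma self_mem_sup {W : Type} {T : SimpleGraph W} (hT : T.IsTree) (s x : W) : x ∈ sup T s x := by
  obtain ⟨p, hp, _⟩ := hT.existsUnique_path s x
  exact ⟨p, hp, p.end_mem_support⟩

/-- parents and lengths in a tree -/
lemma tree_parent {W : Type} (T : SimpleGraph W) (hT : T.IsTree) (s : W) :
    ∃ (par : W → W) (len : W → ℕ), ∀ x, x ≠ s → T.Adj x (par x) ∧ par x ∈ sup T s x ∧
      (∀ v, v ∈ sup T s (par x) → v ∈ sup T s x) ∧ len (par x) < len x := by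
  classical
  choose R hR _ using fun x => hT.existsUnique_path x s
  have key : ∀ x, ∃ y, x ≠ s → T.Adj x y ∧ y ∈ sup T s x ∧
      (∀ v, v ∈ sup T s y → v ∈ sup T s x) ∧ (R y).length < (R x).length := by
    intro x
    by_cases hx : x = s
    · exact ⟨x, fun h => absurd hx h⟩
    · have hRx := hR x
      generalize hp : R x = p at hRx
      cases p with
      | nil => exact absurd rfl hx
      | @cons _ y _ h q =>
        have hq : q.IsPath := hRx.of_cons
        have hRy : R y = q := path_eq hT (hR y) hq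
        refine ⟨y, fun _ => ⟨h, ?_, ?_, ?_⟩⟩
        · refine ⟨(SimpleGraph.Walk.cons h q).reverse, hRx.reverse, ?_⟩
          rw [SimpleGraph.Walk.support_reverse, List.mem_reverse, SimpleGraph.Walk.support_cons]
          exact List.mem_cons_of_mem _ q.start_mem_support
        · rintro v ⟨p', hp', hv⟩
          have : p' = q.reverse := path_eq hT hp' hq.reverse
          rw [this, SimpleGraph.Walk.support_reverse, List.mem_reverse] at hv
          refine ⟨(SimpleGraph.Walk.cons h q).reverse, hRx.reverse, ?_⟩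
          rw [SimpleGraph.Walk.support_reverse, List.mem_reverse, SimpleGraph.Walk.support_cons]
          exact List.mem_cons_of_mem _ hv
        · rw [hRy, SimpleGraph.Walk.length_cons]
          omega
  choose par hpar using key
  exact ⟨par, fun x => (R x).length, fun x hx => hpar x hx⟩

theorem extract {V : Type} [Fintype V] {G : SimpleGraph V} {r : V} {k m : ℕ}
    (T : Fin (k + m) → SimpleGraph (BVr G r k m)) (hT : ∀ i, T i ≤ graph G ∧ (T i).IsTree)
    (hind : ∀ i j, i ≠ j → Independent (root : BVr G r k m) (T i) (T j)) :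
    ∃ T' : Fin k → SimpleGraph V, (∀ i, T' i ≤ G ∧ (T' i).IsTree) ∧
      ∀ i j, i ≠ j → Independent r (T' i) (T' j) := by
  classical
  -- separation
  have hsep : ∀ i j, i ≠ j → ∀ x, x ≠ root → ∀ v, v ∈ sup (T i) root x → v ∈ sup (T j) root x →
      v = root ∨ v = x := by
    rintro i j hij x hx v ⟨p, hp, hv⟩ ⟨q, hq, hv'⟩
    exact (hind i j hij x hx p q hp hq).2 v hv hv'
  have hchild : ∀ i j, i ≠ j → ∀ y, (T i).Adj root y → (T j).Adj root y → False := by
    intro i j hij y h1 h2
    have hy : y ≠ root := h1.ne'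
    have hp : (SimpleGraph.Walk.cons h1 SimpleGraph.Walk.nil).IsPath := by
      rw [SimpleGraph.Walk.cons_isPath_iff]
      refine ⟨SimpleGraph.Walk.IsPath.nil, ?_⟩
      rw [SimpleGraph.Walk.support_nil, List.mem_singleton]
      exact hy.symm
    have hq : (SimpleGraph.Walk.cons h2 SimpleGraph.Walk.nil).IsPath := by
      rw [SimpleGraph.Walk.cons_isPath_iff]
      refine ⟨SimpleGraph.Walk.IsPath.nil, ?_⟩
      rw [SimpleGraph.Walk.support_nil, List.mem_singleton]
      exact hy.symm
    refine (hind i j hij y hy _ _ hp hq).1 s(root, y) ?_ ?_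
    · rw [SimpleGraph.Walk.edges_cons]; exact List.mem_cons_self
    · rw [SimpleGraph.Walk.edges_cons]; exact List.mem_cons_self
  -- children of the root
  have hex : ∀ i, ∃ y, (T i).Adj root y := by
    intro i
    have hcard : 1 < Fintype.card (BVr G r k m) := by
      have h1 := (card_BVr (G := G) (r := r) (k := k) (m := m)).2
      have h2 := i.2
      omega
    obtain ⟨v, hv⟩ := Fintype.exists_ne_of_one_lt_card hcard root
    obtain ⟨p, _, _⟩ := (hT i).2.existsUnique_path root v
    cases p with
    | nil => exact absurd rfl hv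
    | @cons _ y _ h q => exact ⟨y, h⟩
  choose ρ hρ using hex
  have hρinj : Function.Injective ρ := by
    intro i j hij
    by_contra hne
    exact hchild i j hne (ρ i) (hρ i) (hij ▸ hρ j)
  have hρrange : Set.range ρ = (graph G : SimpleGraph (BVr G r k m)).neighborSet root := by
    apply Set.eq_of_subset_of_ncard_le
    · rintro _ ⟨i, rfl⟩
      exact (hT i).1 (hρ i)
    · rw [deg_root, ← Set.image_univ, Set.ncard_image_of_injective _ hρinj, Set.ncard_univ,
        Nat.card_fin]
    · exact Set.toFinite _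
  have honto : ∀ y, (graph G).Adj (root : BVr G r k m) y → ∃ i, ρ i = y := by
    intro y hy
    have : y ∈ Set.range ρ := by rw [hρrange]; exact hy
    exact this
  have hthrough : ∀ i x, x ≠ root → ρ i ∈ sup (T i) root x := by
    intro i x hx
    obtain ⟨p, hp, _⟩ := (hT i).2.existsUnique_path root x
    cases p with
    | nil => exact absurd rfl hx
    | @cons _ y _ h q =>
      obtain ⟨j, hj⟩ := honto y ((hT i).1 h)
      have hji : j = i := by
        by_contra hne
        exact hchild j i hne y (hj ▸ hρ j) h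
      refine ⟨SimpleGraph.Walk.cons h q, hp, ?_⟩
      have hρy : ρ i = y := by rw [← hji]; exact hj
      rw [hρy, SimpleGraph.Walk.support_cons]
      exact List.mem_cons_of_mem _ q.start_mem_support
  have hcen : ∀ t : Fin k, ∃ i, ρ i = cen t := fun t =>
    honto (cen t) ((SimpleGraph.fromRel_adj _ _ _).2 ⟨by simp, Or.inl trivial⟩)
  have hfull : ∀ j : Fin m, ∃ i, ρ i = full j := fun j =>
    honto (full j) ((SimpleGraph.fromRel_adj _ _ _).2 ⟨by simp, Or.inr trivial⟩)
  choose ι hι using hcen
  choose par len hpar using fun i => tree_parent (T i) (hT i).2 (root : BVr G r k m)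
  have hstep : ∀ (t : Fin k) (x : V) (hx : x ≠ r), ∃ y, G.Adj x y ∧
      ((y = r ∧ ∃ h : G.Adj r x, (mid x h : BVr G r k m) ∈ sup (T (ι t)) root (old x hx)) ∨
        ∃ hy : y ≠ r, (∀ v ∈ sup (T (ι t)) root (old y hy : BVr G r k m),
          v ∈ sup (T (ι t)) root (old x hx)) ∧ len (ι t) (old y hy) < len (ι t) (old x hx)) := by
    intro t x hx
    obtain ⟨h1, h2, h3, h4⟩ := hpar (ι t) (old x hx) (by simp)
    generalize hv : par (ι t) (old x hx) = v at h1 h2 h3 h4
    obtain ⟨h5, h6⟩ := (SimpleGraph.fromRel_adj _ _ _).1 ((hT (ι t)).1 h1)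
    cases v with
    | root => rcases h6 with h6 | h6 <;> exact absurd h6 (by simp [rel])
    | cen i => rcases h6 with h6 | h6 <;> exact absurd h6 (by simp [rel])
    | full j =>
      exfalso
      obtain ⟨i', hi'⟩ := hfull j
      have hne : i' ≠ ι t := by
        intro h
        have := hι t
        rw [← h, hi'] at this
        cases this
      have h7 := hthrough i' (old x hx) (by simp)
      rw [hi'] at h7
      rcases hsep i' (ι t) hne (old x hx) (by simp) _ h7 h2 with h8 | h8 <;> cases h8
    | mid y h =>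
      have hyx : y = x := by
        rcases h6 with h6 | h6
        · exact absurd h6 (by simp [rel])
        · exact h6
      subst hyx
      exact ⟨r, h.symm, Or.inl ⟨rfl, h, h2⟩⟩
    | old x' h' =>
      have hadj : G.Adj x x' := by
        rcases h6 with h6 | h6
        · exact h6
        · exact (show G.Adj x' x from h6).symm
      exact ⟨x', hadj, Or.inr ⟨h', h3, h4⟩⟩
  choose φ hφ1 hφ2 using hstep
  set f : Fin k → V → V := fun t x => if hx : x = r then r else φ t x hx with hf
  have f1 : ∀ t, f t r = r := by intro t; simp [hf]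
  have f2 : ∀ t x (hx : x ≠ r), f t x = φ t x hx := by
    intro t x hx
    simp only [hf, hx, dif_neg, not_false_iff]
  set σ : Fin k → V → ℕ := fun t x => if hx : x = r then 0 else len (ι t) (old x hx) + 1 with hσ
  have s1 : ∀ t, σ t r = 0 := by intro t; simp [hσ]
  have s2 : ∀ t x (hx : x ≠ r), σ t x = len (ι t) (old x hx) + 1 := by
    intro t x hx
    simp only [hσ, hx, dif_neg, not_false_iff]
  have hT' : ∀ t, ∃ T' : SimpleGraph V, T' ≤ G ∧ T'.IsTree ∧ ∀ x, x ≠ r →
      ∀ p : T'.Walk r x, p.IsPath →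
      (∀ v ∈ p.support, ∃ m : ℕ, v = (f t)^[m] x) ∧ (s(r, x) ∈ p.edges → f t x = r) := by
    intro t
    refine par_tree G r (f t) (σ t) ?_ ?_
    · intro x hx
      rw [f2 t x hx]
      exact hφ1 t x hx
    · intro x hx
      rw [f2 t x hx, s2 t x hx]
      rcases hφ2 t x hx with ⟨h1, _⟩ | ⟨hy, _, h2⟩
      · rw [h1, s1]; omega
      · rw [s2 t _ hy]; omega
  choose T' hT'1 hT'2 hT'3 using hT'
  have hchain : ∀ t (m : ℕ) (x : V) (hx : x ≠ r), (f t)^[m] x = r ∨ ∃ hy : (f t)^[m] x ≠ r,
      ∀ v ∈ sup (T (ι t)) root (old ((f t)^[m] x) hy : BVr G r k _),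
        v ∈ sup (T (ι t)) root (old x hx) := by
    intro t m
    induction m with
    | zero => intro x hx; exact Or.inr ⟨hx, fun v hv => hv⟩
    | succ m ih =>
      intro x hx
      rw [Function.iterate_succ_apply, f2 t x hx]
      rcases hφ2 t x hx with ⟨h1, _⟩ | ⟨hy, h2, _⟩
      · left
        rw [h1]
        clear ih
        induction m with
        | zero => rfl
        | succ m ih2 => rw [Function.iterate_succ_apply, f1]; exact ih2
      · rcases ih (φ t x hx) hy with h3 | ⟨hy', h3⟩
        · exact Or.inl h3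
        · exact Or.inr ⟨hy', fun v hv => h2 v (h3 v hv)⟩
  refine ⟨T', fun t => ⟨hT'1 t, hT'2 t⟩, ?_⟩
  intro s t hst x hx p q hp hq
  have hιne : ι s ≠ ι t := by
    intro h
    have h1 := hι s
    rw [h, hι t] at h1
    cases h1
    exact hst rfl
  obtain ⟨hp1, hp2⟩ := hT'3 s x hx p hp
  obtain ⟨hq1, hq2⟩ := hT'3 t x hx q hq
  have hv : ∀ v, v ∈ p.support → v ∈ q.support → v = r ∨ v = x := by
    intro v h1 h2
    obtain ⟨m1, hm1⟩ := hp1 v h1
    obtain ⟨m2, hm2⟩ := hq1 v h2
    by_cases hvr : v = r
    · exact Or.inl hvr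
    right
    have g1 : (old v hvr : BVr G r k m) ∈ sup (T (ι s)) root (old x hx) := by
      rcases hchain s m1 x hx with h3 | ⟨hy, h3⟩
      · exact absurd (hm1.trans h3) hvr
      · subst hm1
        exact h3 _ (self_mem_sup (hT (ι s)).2 _ _)
    have g2 : (old v hvr : BVr G r k m) ∈ sup (T (ι t)) root (old x hx) := by
      rcases hchain t m2 x hx with h3 | ⟨hy, h3⟩
      · exact absurd (hm2.trans h3) hvr
      · subst hm2
        exact h3 _ (self_mem_sup (hT (ι t)).2 _ _)
    rcases hsep _ _ hιne (old x hx) (by simp) _ g1 g2 with h4 | h4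
    · cases h4
    · cases h4; rfl
  refine ⟨?_, hv⟩
  intro e he1 he2
  induction e using Sym2.ind with
  | _ a b =>
    have ha := hv a (p.fst_mem_support_of_mem_edges he1) (q.fst_mem_support_of_mem_edges he2)
    have hb := hv b (p.snd_mem_support_of_mem_edges he1) (q.snd_mem_support_of_mem_edges he2)
    have hab : a ≠ b := (SimpleGraph.Walk.adj_of_mem_edges p he1).ne
    have hrx : s(a, b) = s(r, x) := by
      rcases ha with rfl | rfl <;> rcases hb with rfl | rfl
      · exact absurd rfl hab
      · rfl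
      · exact Sym2.eq_swap
      · exact absurd rfl hab
    rw [hrx] at he1 he2
    have e1 := hp2 he1
    have e2 := hq2 he2
    rw [f2 s x hx] at e1
    rw [f2 t x hx] at e2
    rcases hφ2 s x hx with ⟨_, h1, h2⟩ | ⟨hy, _⟩
    · rcases hφ2 t x hx with ⟨_, h1', h2'⟩ | ⟨hy, _⟩
      · rcases hsep _ _ hιne (old x hx) (by simp) _ h2 h2' with h4 | h4 <;> cases h4
      · exact hy e2
    · exact hy e1

/-- reduction of the conjecture to graphs with few vertices more than their connectivity -/
theorem reduce (g : ℕ → ℕ) (hg : ¬ BddAbove (Set.range g))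
    (h : ∀ (k : ℕ) (V : Type) [Fintype V] (G : SimpleGraph V) (r : V),
      Fintype.card V ≤ k + g k → (G.neighborSet r).ncard = k → KConnected G k →
      ∃ T : Fin k → SimpleGraph V, (∀ i, T i ≤ G ∧ (T i).IsTree) ∧
        ∀ i j, i ≠ j → Independent r (T i) (T j))
    (k : ℕ) (V : Type) [Fintype V] (G : SimpleGraph V) (r : V) (hk : KConnected G k) :
    ∃ T : Fin k → SimpleGraph V, (∀ i, T i ≤ G ∧ (T i).IsTree) ∧
      ∀ i j, i ≠ j → Independent r (T i) (T j) := by
  classical
  obtain ⟨m, hm⟩ : ∃ m, 1 + 2 * Fintype.card V ≤ g (k + m) := by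
    by_contra hcon
    push Not at hcon
    apply hg
    refine ⟨(1 + 2 * Fintype.card V) + ∑ i ∈ range k, g i, ?_⟩
    rintro _ ⟨i, rfl⟩
    by_cases hik : i < k
    · have := single_le_sum (f := g) (s := range k) (fun _ _ => Nat.zero_le _) (mem_range.2 hik)
      omega
    · have := hcon (i - k)
      rw [show k + (i - k) = i by omega] at this
      omega
  obtain ⟨T, hT, hind⟩ := h (k + m) (BVr G r k m) (graph G) root
    ((card_BVr (G := G) (r := r) (k := k) (m := m)).1.trans (by omega)) deg_root (conn_BVr hk)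
  exact extract T hT hind

end Pool.Agent.Lib.MP_f76be0_co
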