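import Pool.Agent.Lib.MP_f76be0_co.CaseTwo

/-!
Independent spanning trees in `k`-connected graphs of minimum degree at least `n/3 + 40 k`.
-/

namespace Pool.Agent.Lib.MP_f76be0_co

open Finset Pool.Agent.Lib.MP_4332cb_co

theorem linear_third {V : Type*} [Fintype V] [DecidableEq V] (G : SimpleGraph V)
    [DecidableRel G.Adj] {k δ : ℕ} (hk1 : 1 ≤ k) (hk : KConnected G k)
    (hδ : ∀ v, δ ≤ (univ.filter (fun u => G.Adj v u)).card)
    (h : Fintype.card V + 120 * k ≤ 3 * δ) (r : V) :
    ∃ T : Fin k → SimpleGraph V, (∀ i, T i ≤ G ∧ (T i).IsTree) ∧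
      ∀ i j, i ≠ j → Independent r (T i) (T j) := by
  classical
  set n := Fintype.card V with hn
  have hδn : δ < n := by
    have h1 : univ.filter (fun u => G.Adj r u) ⊆ univ.erase r := by
      intro u hu
      exact mem_erase.2 ⟨(mem_filter.1 hu).2.ne', mem_univ _⟩
    have h2 := (hδ r).trans (card_le_card h1)
    rw [card_erase_of_mem (mem_univ _), card_univ] at h2
    have h3 : 0 < Fintype.card V := Fintype.card_pos_iff.2 ⟨r⟩
    omega
  by_cases hsep : ∀ Q : Finset V, r ∈ Q → Q.card ≤ 1 + (1 + 3 * 8) * k →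
      ∀ x y, x ∉ Q → y ∉ Q → RI G {v | v ∉ Q} x y
  · refine case_one G (r := r) (k := k) (δ := δ) (m := 3) (l := 8) (X := 8 * n / 27) hδ hsep
      (by omega) (by omega) ?_ (by omega)
    intro t ht
    rw [← hn] at ht
    set e := δ - (1 + (1 + 3 * 8) * k) with he
    have h3 : 3 * (n - e) ≤ 2 * n := by omega
    have h4 : (3 * (n - e)) ^ 3 ≤ (2 * n) ^ 3 := Nat.pow_le_pow_left h3 3
    have h5 : 27 * t * n ^ 3 ≤ 8 * n * n ^ 3 := by
      calc 27 * t * n ^ 3 = 27 * (t * n ^ 3) := by ring
        _ ≤ 27 * ((n - e) ^ 3 * n) := Nat.mul_le_mul_left _ ht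
        _ = (3 * (n - e)) ^ 3 * n := by ring
        _ ≤ (2 * n) ^ 3 * n := Nat.mul_le_mul_right _ h4
        _ = 8 * n * n ^ 3 := by ring
    have h6 : 27 * t ≤ 8 * n := Nat.le_of_mul_le_mul_right h5 (pow_pos (by omega) 3)
    omega
  · push Not at hsep
    obtain ⟨Q, hrQ, hQc, x, y, hxQ, hyQ, hxy⟩ := hsep
    have hQ26 : Q.card ≤ 26 * k := by omega
    set A : Finset V := univ.filter (fun z => RI G {v | v ∉ Q} x z) with hA
    set B : Finset V := univ.filter (fun z => z ∉ Q ∧ z ∉ A) with hB
    have mA : ∀ z, z ∈ A ↔ RI G {v | v ∉ Q} x z := fun z => by rw [hA]; simp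
    have mB : ∀ z, z ∈ B ↔ z ∉ Q ∧ z ∉ A := fun z => by rw [hB]; simp
    have hAQ : ∀ z ∈ A, z ∉ Q := fun z hz => ((mA z).1 hz).mem hxQ
    have hAnb : ∀ u ∈ A, ∀ z, G.Adj u z → z ∈ A ∨ z ∈ Q := by
      intro u hu z huz
      by_cases hz : z ∈ Q
      · exact Or.inr hz
      · exact Or.inl ((mA z).2 (((mA u).1 hu).trans (RI.single huz (hAQ u hu) hz)))
    have hBnb : ∀ u ∈ B, ∀ z, G.Adj u z → z ∈ B ∨ z ∈ Q := by
      intro u hu z huz
      by_cases hz : z ∈ Q
      · exact Or.inr hz
      · refine Or.inl ((mB z).2 ⟨hz, fun hzA => ?_⟩)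
        rcases hAnb z hzA u huz.symm with h1 | h1
        · exact ((mB u).1 hu).2 h1
        · exact ((mB u).1 hu).1 h1
    have hdegA : ∀ u ∈ A, δ - 26 * k ≤ (A.filter (fun z => G.Adj u z)).card := by
      intro u hu
      have h1 : univ.filter (fun z => G.Adj u z) ⊆ A.filter (fun z => G.Adj u z) ∪ Q := by
        intro z hz
        have hz' := (mem_filter.1 hz).2
        rcases hAnb u hu z hz' with h2 | h2
        · exact mem_union_left _ (mem_filter.2 ⟨h2, hz'⟩)
        · exact mem_union_right _ h2
      have h2 := (hδ u).trans ((card_le_card h1).trans (card_union_le _ _))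
      omega
    have hdegB : ∀ u ∈ B, δ - 26 * k ≤ (B.filter (fun z => G.Adj u z)).card := by
      intro u hu
      have h1 : univ.filter (fun z => G.Adj u z) ⊆ B.filter (fun z => G.Adj u z) ∪ Q := by
        intro z hz
        have hz' := (mem_filter.1 hz).2
        rcases hBnb u hu z hz' with h2 | h2
        · exact mem_union_left _ (mem_filter.2 ⟨h2, hz'⟩)
        · exact mem_union_right _ h2
      have h2 := (hδ u).trans ((card_le_card h1).trans (card_union_le _ _))
      omega
    have hxA : x ∈ A := (mA x).2 (RI.refl _)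
    have hyB : y ∈ B := (mB y).2 ⟨hyQ, fun h1 => hxy ((mA y).1 h1)⟩
    have hAc : δ - 26 * k ≤ A.card := (hdegA x hxA).trans (card_le_card (filter_subset _ _))
    have hBc : δ - 26 * k ≤ B.card := (hdegB y hyB).trans (card_le_card (filter_subset _ _))
    have hABd : Disjoint A B := by
      rw [Finset.disjoint_left]
      intro z h1 h2
      exact ((mB z).1 h2).2 h1
    have hABc : A.card + B.card ≤ n := by
      rw [← card_union_of_disjoint hABd]
      exact card_le_univ _
    -- common neighbours inside a cluster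
    have hcommon : ∀ X : Finset V, X.card + δ ≤ n + 26 * k → ∀ u v,
        δ - 26 * k ≤ (X.filter (fun z => G.Adj u z)).card →
        δ - 26 * k ≤ (X.filter (fun z => G.Adj v z)).card →
        13 * k < (X.filter (fun z => G.Adj u z ∧ G.Adj v z)).card := by
      intro X hX u v hu hv
      have h1 : X.filter (fun z => G.Adj u z ∧ G.Adj v z) =
          X.filter (fun z => G.Adj u z) ∩ X.filter (fun z => G.Adj v z) := by
        ext z
        simp only [mem_filter, mem_inter]
        tauto
      have h2 := card_union_add_card_inter (X.filter (fun z => G.Adj u z))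
        (X.filter (fun z => G.Adj v z))
      have h3 : (X.filter (fun z => G.Adj u z) ∪ X.filter (fun z => G.Adj v z)).card ≤ X.card :=
        card_le_card (union_subset (filter_subset _ _) (filter_subset _ _))
      rw [h1]
      omega
    have hAA : ∀ u ∈ A, ∀ v ∈ A, 13 * k < (A.filter (fun z => G.Adj u z ∧ G.Adj v z)).card :=
      fun u hu v hv => hcommon A (by omega) u v (hdegA u hu) (hdegA v hv)
    have hBB : ∀ u ∈ B, ∀ v ∈ B, 13 * k < (B.filter (fun z => G.Adj u z ∧ G.Adj v z)).card :=
      fun u hu v hv => hcommon B (by omega) u v (hdegB u hu) (hdegB v hv)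
    -- degrees into `A ∪ B`
    have hsum : ∀ u, δ - 26 * k ≤ (A.filter (fun z => G.Adj u z)).card +
        (B.filter (fun z => G.Adj u z)).card := by
      intro u
      have h1 : univ.filter (fun z => G.Adj u z) ⊆
          (A.filter (fun z => G.Adj u z) ∪ B.filter (fun z => G.Adj u z)) ∪ Q := by
        intro z hz
        have hz' := (mem_filter.1 hz).2
        by_cases hzQ : z ∈ Q
        · exact mem_union_right _ hzQ
        · by_cases hzA : z ∈ A
          · exact mem_union_left _ (mem_union_left _ (mem_filter.2 ⟨hzA, hz'⟩))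
          · exact mem_union_left _ (mem_union_right _
              (mem_filter.2 ⟨(mB z).2 ⟨hzQ, hzA⟩, hz'⟩))
      have h2 := (hδ u).trans ((card_le_card h1).trans (card_union_le _ _))
      have h3 := card_union_le (A.filter (fun z => G.Adj u z)) (B.filter (fun z => G.Adj u z))
      omega
    have he : ∀ u, Fintype.card V + 39 * k ≤ 3 * ((A ∪ B).filter (fun z => G.Adj u z)).card := by
      intro u
      have h1 : (A ∪ B).filter (fun z => G.Adj u z) =
          A.filter (fun z => G.Adj u z) ∪ B.filter (fun z => G.Adj u z) := filter_union _ _ _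
      have h2 : Disjoint (A.filter (fun z => G.Adj u z)) (B.filter (fun z => G.Adj u z)) :=
        disjoint_filter_filter hABd
      rw [h1, card_union_of_disjoint h2]
      have h3 := hsum u
      omega
    set P : Set V := {v | δ - 26 * k ≤ 2 * (A.filter (fun z => G.Adj v z)).card} with hP
    have mP : ∀ v, v ∈ P ↔ δ - 26 * k ≤ 2 * (A.filter (fun z => G.Adj v z)).card :=
      fun v => Iff.rfl
    have hAP : ∀ v ∈ A, v ∈ P := by
      intro v hv
      rw [mP]
      have := hdegA v hv
      omega
    have hBP : ∀ v ∈ B, v ∉ P := by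
      intro v hv hvP
      rw [mP] at hvP
      have h1 : A.filter (fun z => G.Adj v z) = ∅ := by
        rw [filter_eq_empty_iff]
        intro z hz hvz
        rcases hBnb v hv z hvz with h2 | h2
        · exact ((mB z).1 h2).2 hz
        · exact hAQ z hz h2
      rw [h1, card_empty] at hvP
      omega
    have hPA : ∀ v ∈ P, 13 * k < (A.filter (fun z => G.Adj v z)).card := by
      intro v hv
      rw [mP] at hv
      omega
    have hPB : ∀ v, v ∉ P → 13 * k < (B.filter (fun z => G.Adj v z)).card := by
      intro v hv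
      rw [mP] at hv
      have := hsum v
      omega
    by_cases hrP : r ∈ P
    · exact case_two G hk1 hk hδ (by omega) A B P hrP hAP hBP (by omega) hAA hBB hPA hPB he
    · refine case_two G hk1 hk hδ (by omega) B A Pᶜ hrP hBP ?_ (by omega) hBB hAA hPB ?_ ?_
      · intro v hv hv'
        exact hv' (hAP v hv)
      · intro v hv
        exact hPA v (Set.notMem_compl_iff.1 hv)
      · intro u
        rw [union_comm B A]
        exact he u

end Pool.Agent.Lib.MP_f76be0_co
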