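import Pool.Agent.Lib.MP_f76be0_co.CaseOne

/-!
For every `c > 0` there is `C` such that every `C k`-connected graph of minimum degree at least
`c n` has `k` independent spanning trees.
-/

namespace Pool.Agent.Lib.MP_f76be0_co

open Finset Pool.Agent.Lib.MP_4332cb_co

theorem linear_degree (c : ℝ) (hc : 0 < c) : ∃ C : ℕ, ∀ (V : Type) [Fintype V] [DecidableEq V]
    (G : SimpleGraph V) [DecidableRel G.Adj] (k δ : ℕ),
    (∀ v, δ ≤ (univ.filter (fun u => G.Adj v u)).card) →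
    c * (Fintype.card V : ℝ) ≤ δ → KConnected G (C * k) → ∀ r : V,
    ∃ T : Fin k → SimpleGraph V, (∀ i, T i ≤ G ∧ (T i).IsTree) ∧
      ∀ i j, i ≠ j → Independent r (T i) (T j) := by
  classical
  set c' : ℝ := min c 1 with hc'
  have hc0 : 0 < c' := lt_min hc one_pos
  have hc1 : c' ≤ 1 := min_le_right _ _
  have hcc : c' ≤ c := min_le_left _ _
  obtain ⟨m, hm⟩ := exists_pow_lt_of_lt_one (show (0 : ℝ) < c' / 4 by linarith)
    (show 1 - c' / 2 < 1 by linarith)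
  set l : ℕ := ⌈4 / c'⌉₊ with hl
  have hl' : 4 / c' ≤ (l : ℝ) := Nat.le_ceil _
  have hl2 : 4 ≤ c' * l := by
    rw [div_le_iff₀ hc0] at hl'
    linarith
  set M : ℕ := 1 + m * l with hM
  set C : ℕ := ⌈4 * ((M : ℝ) + 2) / c'⌉₊ with hC
  have hC' : 4 * ((M : ℝ) + 2) / c' ≤ (C : ℝ) := Nat.le_ceil _
  have hC2 : 4 * ((M : ℝ) + 2) ≤ c' * C := by
    rw [div_le_iff₀ hc0] at hC'
    linarith
  refine ⟨C, ?_⟩
  intro V _ _ G _ k δ hδ hδc hk r
  rcases Nat.eq_zero_or_pos k with rfl | hk1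
  · exact ⟨fun i => i.elim0, fun i => i.elim0, fun i => i.elim0⟩
  set n := Fintype.card V with hn
  have hCk : C * k < n := hk.1
  have hCkR : (C : ℝ) * k < n := by exact_mod_cast hCk
  have hk1R : (1 : ℝ) ≤ k := by exact_mod_cast hk1
  have hM0 : (0 : ℝ) ≤ M := Nat.cast_nonneg _
  have hn0 : (0 : ℝ) < n := by
    have : (0 : ℝ) ≤ (C : ℝ) * k := by positivity
    linarith
  have hdc : c' * n ≤ δ := by
    have := mul_le_mul_of_nonneg_right hcc hn0.le
    linarith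
  -- `(M + 2) k ≤ (c/4) n`
  have h1 : ((M : ℝ) + 2) * k ≤ c' / 4 * n := by
    have h2 : 4 * ((M : ℝ) + 2) * k ≤ c' * C * k := mul_le_mul_of_nonneg_right hC2 (by linarith)
    have h3 : c' * (C * k) ≤ c' * n := mul_le_mul_of_nonneg_left hCkR.le hc0.le
    nlinarith
  have h1' : ((1 + M * k : ℕ) : ℝ) ≤ c' / 4 * n := by
    push_cast
    nlinarith
  have hQδ : 1 + M * k < δ := by
    have : ((1 + M * k : ℕ) : ℝ) < δ := by nlinarith
    exact_mod_cast this
  have he : 3 / 4 * c' * n ≤ ((δ - (1 + M * k) : ℕ) : ℝ) := by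
    rw [Nat.cast_sub hQδ.le]
    linarith
  have hδn : δ < n := by
    have g1 : univ.filter (fun u => G.Adj r u) ⊆ univ.erase r := by
      intro u hu
      exact mem_erase.2 ⟨(mem_filter.1 hu).2.ne', mem_univ _⟩
    have g2 := (hδ r).trans (card_le_card g1)
    rw [card_erase_of_mem (mem_univ _), card_univ] at g2
    have g3 : 0 < Fintype.card V := Fintype.card_pos_iff.2 ⟨r⟩
    omega
  refine case_one G (r := r) (k := k) (δ := δ) (m := m) (l := l) (X := ⌊c' / 4 * n⌋₊) hδ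
    ?_ hQδ ?_ ?_ ?_
  · intro Q _ hQ x y hx hy
    have hlt : Q.card < C * k := by
      have g1 : (Q.card : ℝ) ≤ 1 + M * k := by exact_mod_cast hQ
      have g2 : (Q.card : ℝ) < C * k := by
        have g3 : 4 * ((M : ℝ) + 2) ≤ C := by
          have : c' * (C : ℝ) ≤ 1 * C := mul_le_mul_of_nonneg_right hc1 (Nat.cast_nonneg _)
          linarith
        have g4 : 4 * ((M : ℝ) + 2) * k ≤ C * k := mul_le_mul_of_nonneg_right g3 (by linarith)
        nlinarith
      exact_mod_cast g2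
    have h5 := hk.2 Q hlt
    exact ((Cn_iff G _).2 h5).2 x hx y hy
  · have g1 : (3 : ℝ) * n < (l + 1) * ((δ - (1 + M * k) : ℕ) : ℝ) := by
      have g2 : ((l : ℝ) + 1) * (3 / 4 * c' * n) ≤ (l + 1) * ((δ - (1 + M * k) : ℕ) : ℝ) :=
        mul_le_mul_of_nonneg_left he (by positivity)
      have g3 : 0 < 3 / 4 * c' * n := by positivity
      nlinarith
    exact_mod_cast g1
  · intro t ht
    apply Nat.le_floor
    have g0 : δ - (1 + M * k) ≤ n := by omega
    have g1 : (((n - (δ - (1 + M * k)) : ℕ)) : ℝ) ≤ (1 - c' / 2) * n := by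
      rw [Nat.cast_sub g0]
      nlinarith
    have g2 : (t : ℝ) * (n : ℝ) ^ m ≤ ((n - (δ - (1 + M * k)) : ℕ) : ℝ) ^ m * n := by
      exact_mod_cast ht
    have g3 : (((n - (δ - (1 + M * k)) : ℕ)) : ℝ) ^ m ≤ ((1 - c' / 2) * n) ^ m :=
      pow_le_pow_left₀ (Nat.cast_nonneg _) g1 m
    have g4 : (t : ℝ) * (n : ℝ) ^ m ≤ (c' / 4 * n) * (n : ℝ) ^ m := by
      calc (t : ℝ) * (n : ℝ) ^ m ≤ ((1 - c' / 2) * n) ^ m * n :=
            g2.trans (mul_le_mul_of_nonneg_right g3 hn0.le)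
        _ = (1 - c' / 2) ^ m * (n * (n : ℝ) ^ m) := by rw [mul_pow]; ring
        _ ≤ c' / 4 * (n * (n : ℝ) ^ m) := mul_le_mul_of_nonneg_right hm.le (by positivity)
        _ = (c' / 4 * n) * (n : ℝ) ^ m := by ring
    exact le_of_mul_le_mul_right g4 (by positivity)
  · have g1 : (⌊c' / 4 * n⌋₊ : ℝ) ≤ c' / 4 * n := Nat.floor_le (by positivity)
    have g2 : ((k + 1 + k * M + ⌊c' / 4 * n⌋₊ : ℕ) : ℝ) ≤ δ := by
      push_cast
      nlinarith
    exact_mod_cast g2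

end Pool.Agent.Lib.MP_f76be0_co
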