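import Pool.Agent.Lib.MP_f76be0_co.Two

/-!
Independent spanning trees in `k`-connected graphs of minimum degree `n/3 + 20 k log n`.
-/

namespace Pool.Agent.Lib.MP_f76be0_co

open Finset Pool.Agent.Lib.MP_4332cb_co

theorem colours (V : Type) [Fintype V] (k t : ℕ) (hn : 3 ≤ Fintype.card V) (hk : 1 ≤ k)
    (hkn : k ≤ Fintype.card V) (ht : 4 * (k : ℝ) * Real.log (Fintype.card V) < t) :
    Colours V k t := by
  intro ι _ S hι hS
  refine exists_coloring k t hk S hS (lt_of_le_of_lt ?_ (numeric (Fintype.card V) k t hn hk hkn ht))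
  exact Nat.mul_le_mul_right _ hι

theorem pack {V : Type} [Fintype V] {G : SimpleGraph V} {k δ : ℕ} (hk1 : 1 ≤ k)
    (hk : KConnected G k) (hδ : ∀ v, δ ≤ (nb G v).card)
    (h : (Fintype.card V : ℝ) / 3 + 20 * k * Real.log (Fintype.card V) ≤ δ) (r : V) :
    Pack G r k := by
  classical
  set n := Fintype.card V with hn
  have hkn : k < n := hk.1
  have hδn : δ < n := by
    have h1 : nb G r ⊆ univ.erase r := by
      intro u hu
      rw [mem_nb] at hu
      exact mem_erase.2 ⟨hu.ne', mem_univ _⟩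
    have h2 := (hδ r).trans (card_le_card h1)
    rw [card_erase_of_mem (mem_univ _), card_univ] at h2
    omega
  have hδnR : (δ : ℝ) < n := by exact_mod_cast hδn
  have hk1R : (1 : ℝ) ≤ k := by exact_mod_cast hk1
  have hn2 : (2 : ℝ) ≤ n := by exact_mod_cast (by omega : 2 ≤ n)
  have hlog0 : 0 ≤ Real.log n := Real.log_nonneg (by linarith)
  have hkl : Real.log n ≤ k * Real.log n := by nlinarith
  -- `n` is large
  have hlog2 : (0.69 : ℝ) < Real.log n := by
    have : Real.log 2 ≤ Real.log n := Real.log_le_log (by norm_num) hn2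
    have := Real.log_two_gt_d9
    linarith
  have hn16 : (16 : ℝ) < n := by nlinarith
  have hlog16 : (2.7 : ℝ) < Real.log n := by
    have h1 : Real.log 16 ≤ Real.log n := Real.log_le_log (by norm_num) hn16.le
    have h2 : Real.log 16 = 4 * Real.log 2 := by
      rw [show (16 : ℝ) = 2 ^ 4 by norm_num, Real.log_pow]; norm_num
    have := Real.log_two_gt_d9
    linarith
  have hn3 : 3 ≤ n := by
    have : (3 : ℝ) ≤ n := by linarith
    exact_mod_cast this
  set t := ⌊4 * (k : ℝ) * Real.log n⌋₊ + 1 with ht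
  have htl : 4 * (k : ℝ) * Real.log n < t := by
    rw [ht]; push_cast; exact Nat.lt_floor_add_one _
  have htu : (t : ℝ) ≤ 4 * (k : ℝ) * Real.log n + 1 := by
    rw [ht]; push_cast
    have := Nat.floor_le (a := 4 * (k : ℝ) * Real.log n) (by positivity)
    linarith
  have hcol : Colours V k t := colours V k t hn3 hk1 hkn.le htl
  have hk27 : 2.7 * (k : ℝ) ≤ k * Real.log n := by nlinarith
  have h1 : n + 3 * (t + 2 * k + 1) < 3 * δ := by
    have : (n : ℝ) + 3 * (t + 2 * k + 1) < 3 * δ := by nlinarith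
    exact_mod_cast this
  have h2 : 5 * t + 8 * k + 5 < δ := by
    have : 5 * (t : ℝ) + 8 * k + 5 < δ := by nlinarith
    exact_mod_cast this
  by_cases hI : ∀ x y, R G (t + 2 * k + 1) x y ∨
      ∃ M : Finset V, t + 1 ≤ M.card ∧ ∀ m ∈ M, R G (t + 2 * k + 1) x m ∧ R G (t + 2 * k + 1) m y
  · exact caseI r hcol (by omega) (by omega) (fun v => by have := hδ v; omega) hI
  · push Not at hI
    obtain ⟨x0, y0, hxy, hM⟩ := hI
    refine caseII r hk hcol hn3 hδ h1 h2 x0 y0 hxy ?_
    intro M hM'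
    by_contra hlt
    push Not at hlt
    obtain ⟨m, hm, hm'⟩ := hM M hlt
    exact hm' (hM' m hm).1 (hM' m hm).2

end Pool.Agent.Lib.MP_f76be0_co
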