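import Pool.Agent.Lib.MP_f76be0_co.Tree
import Pool.Agent.Lib.MP_f76be0_co.Color

/-!
Disjoint connected dominating sets in `k`-connected graphs of minimum degree slightly above `n/3`.
-/

namespace Pool.Agent.Lib.MP_f76be0_co

open Finset Pool.Agent.Lib.MP_4332cb_co

section
variable {V : Type*} [Fintype V]

open Classical in
/-- neighbourhood -/
noncomputable def nb (G : SimpleGraph V) (v : V) : Finset V := univ.filter (fun u => G.Adj v u)

open Classical in
/-- common neighbourhood -/
noncomputable def cm (G : SimpleGraph V) (u v : V) : Finset V :=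
  univ.filter (fun z => G.Adj u z ∧ G.Adj v z)

lemma mem_nb {G : SimpleGraph V} {v u : V} : u ∈ nb G v ↔ G.Adj v u := by
  classical
  simp [nb]

lemma mem_cm {G : SimpleGraph V} {u v z : V} : z ∈ cm G u v ↔ G.Adj u z ∧ G.Adj v z := by
  classical
  simp [cm]

lemma cm_comm (G : SimpleGraph V) (u v : V) : cm G u v = cm G v u := by
  ext z
  rw [mem_cm, mem_cm, and_comm]

/-- many common neighbours -/
def R (G : SimpleGraph V) (t : ℕ) (u v : V) : Prop := t ≤ (cm G u v).card

lemma R.symm {G : SimpleGraph V} {t : ℕ} {u v : V} (h : R G t u v) : R G t v u := by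
  unfold R at *
  rw [cm_comm]; exact h

/-- the graph of pairs with many common neighbours has independence number at most two -/
lemma alpha {G : SimpleGraph V} {t δ : ℕ} (hδ : ∀ v, δ ≤ (nb G v).card)
    (h : Fintype.card V + 3 * t < 3 * δ) (x y z : V) : R G t x y ∨ R G t y z ∨ R G t x z := by
  classical
  by_contra hcon
  push Not at hcon
  obtain ⟨h1, h2, h3⟩ := hcon
  unfold R at h1 h2 h3
  push Not at h1 h2 h3
  have e1 : nb G x ∩ nb G y = cm G x y := by ext w; rw [mem_inter, mem_nb, mem_nb, mem_cm]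
  have e2 : nb G y ∩ nb G z = cm G y z := by ext w; rw [mem_inter, mem_nb, mem_nb, mem_cm]
  have e3 : nb G x ∩ nb G z = cm G x z := by ext w; rw [mem_inter, mem_nb, mem_nb, mem_cm]
  have a1 := Finset.card_union_add_card_inter (nb G x) (nb G y)
  have a2 := Finset.card_union_add_card_inter (nb G x ∪ nb G y) (nb G z)
  have a3 : ((nb G x ∪ nb G y) ∩ nb G z).card ≤ (cm G x z).card + (cm G y z).card := by
    rw [Finset.union_inter_distrib_right, e3, e2]
    exact card_union_le _ _
  have a4 : ((nb G x ∪ nb G y) ∪ nb G z).card ≤ Fintype.card V := card_le_univ _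
  rw [e1] at a1
  have b1 := hδ x
  have b2 := hδ y
  have b3 := hδ z
  omega

/-- a vertex `x` has few common neighbours only with few vertices -/
lemma count {G : SimpleGraph V} {t δ : ℕ} (hδ : ∀ v, δ ≤ (nb G v).card)
    (h : Fintype.card V ≤ 3 * δ) (hδ0 : 0 < δ) (x : V) (A : Finset V)
    (hA : ∀ z, z ∉ A → ¬ R G t z x) : δ ≤ A.card + 3 * t := by
  classical
  have h1 : ∑ z ∈ Aᶜ, (cm G z x).card ≤ Fintype.card V * t := by
    calc ∑ z ∈ Aᶜ, (cm G z x).card ≤ ∑ z ∈ Aᶜ, t := by
          apply Finset.sum_le_sum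
          intro z hz
          have := hA z (mem_compl.1 hz)
          unfold R at this
          omega
      _ = Aᶜ.card * t := by rw [sum_const, smul_eq_mul]
      _ ≤ Fintype.card V * t := Nat.mul_le_mul_right _ (card_le_univ _)
  have h2 : ∑ z ∈ Aᶜ, (cm G z x).card = ∑ u ∈ nb G x, (Aᶜ.filter (fun z => G.Adj z u)).card := by
    simp_rw [Finset.card_eq_sum_ones, Finset.sum_filter]
    rw [Finset.sum_comm]
    apply Finset.sum_congr rfl
    intro z _
    rw [← Finset.sum_filter]
    apply Finset.sum_congr _ (fun _ _ => rfl)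
    ext u
    rw [mem_cm, mem_filter, mem_nb, and_comm]
  have h3 : ∑ u ∈ nb G x, (δ - A.card) ≤ ∑ u ∈ nb G x, (Aᶜ.filter (fun z => G.Adj z u)).card := by
    apply Finset.sum_le_sum
    intro u _
    have h4 : nb G u ⊆ A ∪ (Aᶜ.filter (fun z => G.Adj z u)) := by
      intro z hz
      rw [mem_nb] at hz
      by_cases hzA : z ∈ A
      · exact mem_union_left _ hzA
      · exact mem_union_right _ (mem_filter.2 ⟨mem_compl.2 hzA, hz.symm⟩)
    have h5 := (card_le_card h4).trans (card_union_le _ _)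
    have := hδ u
    omega
  rw [sum_const, smul_eq_mul] at h3
  have h6 : δ * (δ - A.card) ≤ δ * (3 * t) := by
    calc δ * (δ - A.card) ≤ (nb G x).card * (δ - A.card) := Nat.mul_le_mul_right _ (hδ x)
      _ ≤ Fintype.card V * t := by rw [h2] at h1; exact h3.trans h1
      _ ≤ 3 * δ * t := Nat.mul_le_mul_right _ h
      _ = δ * (3 * t) := by ring
  have := Nat.le_of_mul_le_mul_left h6 hδ0
  omega

lemma RI_of_common {G : SimpleGraph V} {S : Set V} {u v z : V} (hu : u ∈ S) (hv : v ∈ S)
    (hz : z ∈ S) (h : z ∈ cm G u v) : RI G S u v := by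
  rw [mem_cm] at h
  exact (RI.single h.1 hu hz).trans (RI.single h.2.symm hz hv)

end

/-- the property of `k` disjoint connected dominating sets, rooted at `r` -/
def Pack {V : Type*} (G : SimpleGraph V) (r : V) (k : ℕ) : Prop :=
  ∃ U : Fin k → Set V, (∀ i, r ∉ U i) ∧ (∀ i j, i ≠ j → Disjoint (U i) (U j)) ∧
    (∀ i, ∀ x ∈ U i, RI G (insert r (U i)) r x) ∧
    (∀ i, ∀ x, x ∉ insert r (U i) → ∃ u ∈ U i, G.Adj x u)

/-- small families of sets of size at least `t` have a good colouring -/
def Colours (V : Type) [Fintype V] (k t : ℕ) : Prop :=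
  ∀ (ι : Type) [Fintype ι] (S : ι → Finset V), Fintype.card ι ≤ 3 * Fintype.card V ^ 2 →
    (∀ i, t ≤ (S i).card) → ∃ col : V → Fin k, ∀ i c, ∃ v ∈ S i, col v = c

/-- robust case -/
theorem caseI {V : Type} [Fintype V] {G : SimpleGraph V} {k t t1 : ℕ} (r : V)
    (hcol : Colours V k t) (ht1 : t + 1 ≤ t1) (hn : t + 1 ≤ Fintype.card V)
    (hδ : ∀ v, t + 1 ≤ (nb G v).card)
    (h : ∀ x y, R G t1 x y ∨ ∃ M : Finset V, t + 1 ≤ M.card ∧ ∀ m ∈ M, R G t1 x m ∧ R G t1 m y) :
    Pack G r k := by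
  classical
  have hM : ∀ p : V × V, ∃ M : Finset V, t ≤ M.card ∧
      (¬ R G t1 p.1 p.2 → r ∉ M ∧ ∀ m ∈ M, R G t1 p.1 m ∧ R G t1 m p.2) := by
    intro p
    by_cases hp : R G t1 p.1 p.2
    · exact ⟨univ, by rw [card_univ]; omega, fun h => absurd hp h⟩
    · rcases h p.1 p.2 with h1 | ⟨M, h1, h2⟩
      · exact absurd h1 hp
      · refine ⟨M.erase r, ?_, fun _ => ⟨notMem_erase _ _, fun m hm => h2 m (mem_of_mem_erase hm)⟩⟩
        have := Finset.pred_card_le_card_erase (s := M) (a := r)
        omega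
  choose M hM1 hM2 using hM
  let S : (V ⊕ (V × V)) ⊕ (V × V) → Finset V := fun j => match j with
    | Sum.inl (Sum.inl v) => (nb G v).erase r
    | Sum.inl (Sum.inr p) => if R G t1 p.1 p.2 then (cm G p.1 p.2).erase r else univ
    | Sum.inr p => M p
  obtain ⟨col, hc⟩ := hcol _ S (by
    rw [Fintype.card_sum, Fintype.card_sum, Fintype.card_prod]
    nlinarith [Nat.zero_le (Fintype.card V), Nat.le_self_pow (n := 2) two_ne_zero (Fintype.card V)]) (by
    rintro ((v | p) | p)
    · have := hδ v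
      have h2 := Finset.pred_card_le_card_erase (s := nb G v) (a := r)
      show t ≤ ((nb G v).erase r).card
      omega
    · show t ≤ (if R G t1 p.1 p.2 then (cm G p.1 p.2).erase r else univ).card
      split_ifs with hp
      · unfold R at hp
        have h2 := Finset.pred_card_le_card_erase (s := cm G p.1 p.2) (a := r)
        omega
      · rw [card_univ]; omega
    · exact hM1 p)
  refine ⟨fun i => {v | v ≠ r ∧ col v = i}, fun i h => h.1 rfl, ?_, ?_, ?_⟩
  · intro i j hij
    rw [Set.disjoint_left]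
    rintro v ⟨_, h1⟩ ⟨_, h2⟩
    exact hij (h1.symm.trans h2)
  · intro i x hx
    set Q : Set V := insert r {v | v ≠ r ∧ col v = i} with hQ
    have hR : ∀ u ∈ Q, ∀ v ∈ Q, R G t1 u v → RI G Q u v := by
      intro u hu v hv huv
      obtain ⟨z, hz, hzc⟩ := hc (Sum.inl (Sum.inr (u, v))) i
      have hz' : z ∈ (cm G u v).erase r := by
        have : S (Sum.inl (Sum.inr (u, v))) = (cm G u v).erase r := by
          show (if R G t1 u v then (cm G u v).erase r else univ) = _
          rw [if_pos huv]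
        rw [← this]; exact hz
      rw [mem_erase] at hz'
      exact RI_of_common hu hv (Set.mem_insert_of_mem _ ⟨hz'.1, hzc⟩) hz'.2
    have hr : r ∈ Q := Set.mem_insert _ _
    have hxQ : x ∈ Q := Set.mem_insert_of_mem _ hx
    by_cases hrx : R G t1 r x
    · exact hR r hr x hxQ hrx
    · obtain ⟨m, hm, hmc⟩ := hc (Sum.inr (r, x)) i
      have hm' : m ∈ M (r, x) := hm
      have h2 := hM2 (r, x) hrx
      have hmr : m ≠ r := fun h => h2.1 (h ▸ hm')
      have hmQ : m ∈ Q := Set.mem_insert_of_mem _ ⟨hmr, hmc⟩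
      exact (hR r hr m hmQ (h2.2 m hm').1).trans (hR m hmQ x hxQ (h2.2 m hm').2)
  · intro i x _
    obtain ⟨u, hu, huc⟩ := hc (Sum.inl (Sum.inl x)) i
    have hu' : u ∈ (nb G x).erase r := hu
    rw [mem_erase, mem_nb] at hu'
    exact ⟨u, ⟨hu'.1, huc⟩, hu'.2⟩

end Pool.Agent.Lib.MP_f76be0_co
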