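import Pool.Agent.Lib.MP_4332cb_co.Menger

/-!
Independent spanning trees from disjoint connected dominating sets.
-/

namespace Pool.Agent.Lib.MP_f76be0_co

open Finset Pool.Agent.Lib.MP_4332cb_co

/-- `G` is `k`-connected: it has more than `k` vertices, and deleting any set of fewer than `k`
vertices leaves a connected graph. -/
def KConnected {V : Type*} [Fintype V] (G : SimpleGraph V) (k : ℕ) : Prop :=
  k < Fintype.card V ∧ ∀ S : Finset V, S.card < k → (G.induce {v : V | v ∉ S}).Connected

/-- `T₁` and `T₂` are `r`-independent: for every vertex `x ≠ r` the paths from `r` to `x` in `T₁`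
and in `T₂` share no edge, and no vertex other than `r` and `x`. -/
def Independent {V : Type*} (r : V) (T₁ T₂ : SimpleGraph V) : Prop :=
  ∀ x, x ≠ r → ∀ (p : T₁.Walk r x) (q : T₂.Walk r x), p.IsPath → q.IsPath →
    (∀ e ∈ p.edges, e ∉ q.edges) ∧ ∀ v, v ∈ p.support → v ∈ q.support → v = r ∨ v = x

/-- the graph of edges inside `U ∪ {r}` and of one edge `v (f v)` for each other vertex `v` -/
def hub {V : Type*} (G : SimpleGraph V) (r : V) (U : Set V) (f : V → V) : SimpleGraph V where
  Adj a b := G.Adj a b ∧ ((a ∈ insert r U ∧ b ∈ insert r U) ∨ (a ∉ insert r U ∧ b = f a) ∨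
    (b ∉ insert r U ∧ a = f b))
  symm := ⟨by
    rintro a b ⟨h1, h2 | h2 | h2⟩
    · exact ⟨h1.symm, Or.inl ⟨h2.2, h2.1⟩⟩
    · exact ⟨h1.symm, Or.inr (Or.inr h2)⟩
    · exact ⟨h1.symm, Or.inr (Or.inl h2)⟩⟩
  loopless := ⟨by
    rintro a ⟨h, _⟩
    exact h.ne rfl⟩

lemma reachable_of_RI {V : Type*} {G H : SimpleGraph V} {S : Set V} {x y : V}
    (h : RI G S x y) (hH : ∀ a ∈ S, ∀ b ∈ S, G.Adj a b → H.Adj a b) : H.Reachable x y := by
  induction h with
  | refl => exact SimpleGraph.Reachable.refl _
  | tail _ h2 ih => exact ih.trans (hH _ h2.2.1 _ h2.2.2 h2.1).reachable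

/-- in a graph below `hub`, inner vertices of paths are in `insert r U` -/
lemma inner {V : Type*} {G T : SimpleGraph V} {r : V} {U : Set V} {f : V → V}
    (hf : ∀ v, v ∉ insert r U → f v ∈ U) (hT : T ≤ hub G r U f) {a b : V} (p : T.Walk a b)
    (hp : p.IsPath) : ∀ v ∈ p.support, v = a ∨ v = b ∨ v ∈ insert r U := by
  induction p with
  | nil =>
    intro v hv
    rw [SimpleGraph.Walk.support_nil, List.mem_singleton] at hv
    exact Or.inl hv
  | @cons a c b h p ih =>
    intro v hv
    rw [SimpleGraph.Walk.support_cons, List.mem_cons] at hv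
    rcases hv with hv | hv
    · exact Or.inl hv
    · rw [SimpleGraph.Walk.cons_isPath_iff] at hp
      rcases ih hp.1 v hv with h1 | h1 | h1
      · by_cases hc : c ∈ insert r U
        · rw [h1]; exact Or.inr (Or.inr hc)
        · -- `c` has only one neighbour
          have hnb : ∀ w, T.Adj c w → w = f c := by
            intro w hw
            rcases (hT hw).2 with h2 | h2 | h2
            · exact absurd h2.1 hc
            · exact h2.2
            · exact absurd (by rw [h2.2]; exact Set.mem_insert_of_mem _ (hf w h2.1)) hc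
          cases p with
          | nil => exact Or.inr (Or.inl h1)
          | @cons _ d _ h' p' =>
            exfalso
            apply hp.2
            have e1 := hnb a h.symm
            have e2 := hnb d h'
            rw [SimpleGraph.Walk.support_cons, List.mem_cons]
            right
            rw [e1, ← e2]
            exact p'.start_mem_support
      · exact Or.inr (Or.inl h1)
      · exact Or.inr (Or.inr h1)

theorem exists_tree {V : Type*} [Fintype V] (G : SimpleGraph V) (r : V) (U : Set V) (hr : r ∉ U)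
    (hc : ∀ x ∈ U, RI G (insert r U) r x)
    (hd : ∀ x, x ∉ insert r U → ∃ u ∈ U, G.Adj x u) :
    ∃ T : SimpleGraph V, T ≤ G ∧ T.IsTree ∧ ∀ x, x ≠ r → ∀ p : T.Walk r x, p.IsPath →
      (∀ v ∈ p.support, v = r ∨ v = x ∨ v ∈ U) ∧ (x ∉ U → s(r, x) ∉ p.edges) := by
  classical
  choose! f hf1 hf2 using hd
  have hle : hub G r U f ≤ G := fun a b h => h.1
  have hreach : ∀ x, (hub G r U f).Reachable r x := by
    have h1 : ∀ x ∈ insert r U, (hub G r U f).Reachable r x := by
      intro x hx
      rcases hx with rfl | hx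
      · exact SimpleGraph.Reachable.refl _
      · exact reachable_of_RI (hc x hx) (fun a ha b hb hab => ⟨hab, Or.inl ⟨ha, hb⟩⟩)
    intro x
    by_cases hx : x ∈ insert r U
    · exact h1 x hx
    · refine (h1 (f x) (Set.mem_insert_of_mem _ (hf1 x hx))).trans ?_
      exact (show (hub G r U f).Adj (f x) x from
        ⟨(hf2 x hx).symm, Or.inr (Or.inr ⟨hx, rfl⟩)⟩).reachable
  have hconn : (hub G r U f).Connected := by
    have : Nonempty V := ⟨r⟩
    exact ⟨fun x y => (hreach x).symm.trans (hreach y)⟩
  obtain ⟨T, hT, hTree⟩ := hconn.exists_isTree_le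
  refine ⟨T, hT.trans hle, hTree, ?_⟩
  intro x hx p hp
  constructor
  · intro v hv
    rcases inner hf1 hT p hp v hv with h | h | h
    · exact Or.inl h
    · exact Or.inr (Or.inl h)
    · rcases h with h | h
      · exact Or.inl h
      · exact Or.inr (Or.inr h)
  · intro hxU he
    have hadj : T.Adj r x := SimpleGraph.Walk.adj_of_mem_edges p he
    have hx' : x ∉ insert r U := by
      rintro (h | h)
      · exact hx h
      · exact hxU h
    rcases (hT hadj).2 with h | h | h
    · exact hx' h.2
    · exact h.1 (Set.mem_insert _ _)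
    · exact hr (h.2 ▸ hf1 x hx')

/-- disjoint connected dominating sets give independent spanning trees -/
theorem exists_trees {V : Type*} [Fintype V] (G : SimpleGraph V) (r : V) (k : ℕ)
    (U : Fin k → Set V) (hr : ∀ i, r ∉ U i) (hdis : ∀ i j, i ≠ j → Disjoint (U i) (U j))
    (hc : ∀ i, ∀ x ∈ U i, RI G (insert r (U i)) r x)
    (hd : ∀ i, ∀ x, x ∉ insert r (U i) → ∃ u ∈ U i, G.Adj x u) :
    ∃ T : Fin k → SimpleGraph V, (∀ i, T i ≤ G ∧ (T i).IsTree) ∧
      ∀ i j, i ≠ j → Independent r (T i) (T j) := by
  choose T hT1 hT2 hT3 using fun i => exists_tree G r (U i) (hr i) (hc i) (hd i)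
  refine ⟨T, fun i => ⟨hT1 i, hT2 i⟩, ?_⟩
  intro i j hij x hx p q hp hq
  have hpi := hT3 i x hx p hp
  have hqj := hT3 j x hx q hq
  have hv : ∀ v, v ∈ p.support → v ∈ q.support → v = r ∨ v = x := by
    intro v h1 h2
    rcases hpi.1 v h1 with h | h | h
    · exact Or.inl h
    · exact Or.inr h
    · rcases hqj.1 v h2 with h' | h' | h'
      · exact Or.inl h'
      · exact Or.inr h'
      · exact absurd h' (Set.disjoint_left.1 (hdis i j hij) h)
  refine ⟨?_, hv⟩
  intro e he1 he2
  induction e using Sym2.ind with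
  | _ a b =>
    have ha := hv a (p.fst_mem_support_of_mem_edges he1) (q.fst_mem_support_of_mem_edges he2)
    have hb := hv b (p.snd_mem_support_of_mem_edges he1) (q.snd_mem_support_of_mem_edges he2)
    have hab : a ≠ b := (SimpleGraph.Walk.adj_of_mem_edges p he1).ne
    have hrx : s(a, b) = s(r, x) := by
      rcases ha with rfl | rfl <;> rcases hb with rfl | rfl
      · exact absurd rfl hab
      · rfl
      · exact Sym2.eq_swap
      · exact absurd rfl hab
    rw [hrx] at he1 he2
    by_cases hxi : x ∈ U i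
    · exact hqj.2 (Set.disjoint_left.1 (hdis i j hij) hxi) he2
    · exact hpi.2 hxi he1

end Pool.Agent.Lib.MP_f76be0_co
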